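import Pool.Agent.Helper15K1.MM.Main

/-!
The function fields of the covers of products of projective spaces: the transcendence degree and
the existence of divisorial places.
-/

set_option autoImplicit false
set_option linter.overlappingInstances false
set_option linter.unusedSectionVars false
set_option maxHeartbeats 1000000

open FF MvPolynomial Pool.Agent.W603.LV Pool.Agent.W602.GT Pool.Agent.W602.Cov
open Pool.Agent.TH756.PR Pool.Agent.TH122.AB Pool.Agent.TH756.PN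
open Pool.Agent.Y169.CH Pool.Agent.Y169.CH.Cvr Pool.Agent.Q57.TP Pool.Agent.Q57.TQ
open Pool.Agent.Q57.GM Pool.Agent.Q57.GH Pool.Agent.Q57.FG Pool.Agent.Q57.GG Pool.Agent.Q57.FT

namespace Pool.Agent.Helper15K1.MM

variable {r N R : ℕ} {n : Fin r → ℕ} {K : Type} [Field K] [Algebra ℂ K]

theorem trdeg_of_basis (hN : N = ∑ i, n i) {x : ∀ i, Fin (n i + 1) → K}
    (hbas : IsTranscendenceBasis ℂ (aff x)) : Algebra.trdeg ℂ K = N := by
  rw [← hbas.cardinalMk_eq_trdeg]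
  simp [hN]

theorem exists_div (hr : 1 ≤ r) (hn : ∀ i, 1 ≤ n i) (hN : N = ∑ i, n i)
    {F : ∀ i, MvPolynomial (Fin (n i + 1)) ℂ} {d : Fin r → ℕ} (hd : ∀ i, 1 ≤ d i)
    (hh : ∀ i, (F i).IsHomogeneous (d i)) (hs : ∀ i, SmF (F i))
    {x : ∀ i, Fin (n i + 1) → K} (hx0 : ∀ i, x i 0 ≠ 0)
    (hbas : IsTranscendenceBasis ℂ (aff x)) {m : Fin R → ℕ} (hm : ∀ j, 0 < m j)
    {a : Fin R → Fin r → ℕ} (hdiv : ∀ j i, m j ∣ a j i * d i) {z : Fin R → K}
    (hz : ∀ j, z j ^ m j = ∏ i, (aeval (x i) (F i) / x i 0 ^ d i) ^ a j i)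
    (hgen : IntermediateField.adjoin ℂ (Set.range (aff x) ∪ Set.range z) = ⊤) :
    ∃ P : Place ℂ K, Divisorial N P := by
  obtain ⟨N', e, Φ, C, x', F', rfl, hΦ, rfl, rfl, H, hvv, hco⟩ :=
    setup (N := N) hr hn hN hd hh hs hx0 hbas hm hdiv hz hgen
  obtain ⟨hv, hT⟩ := adm_single hm C.a ⟨0, hr⟩
  obtain ⟨X, -⟩ := C.exists_dir hv hT
  obtain ⟨P, -, -, hP, -⟩ := Pool.Agent.Q57.GE.exists_place C hΦ X
  exact ⟨P, hP⟩

end Pool.Agent.Helper15K1.MM
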