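import Pool.Agent.Helper15K1.MM.Prog

/-!
The chambers and the walls along a general half-line.
-/

set_option autoImplicit false

namespace Pool.Agent.Helper15K1.MM

open Pool.Agent.Q57.HK

variable {p N0 : ℕ} {g : Fin N0 → Fin p → ℤ} {lam κ : Fin p → ℚ} {Q : Type}

/-- the point of the half-line -/
abbrev mu (lam κ : Fin p → ℚ) (t : ℚ) : Fin p → ℚ := fun i => lam i + t * κ i

/-- the linear span of the generators in `B` -/
def Sp (g : Fin N0 → Fin p → ℤ) (B : Finset (Fin N0)) (μ : Fin p → ℚ) : Prop :=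
  ∃ z : Fin N0 → ℚ, (∀ b, b ∉ B → z b = 0) ∧ ∀ i, ∑ b, z b * g b i = μ i

theorem sp_lin {B : Finset (Fin N0)} {μ μ' : Fin p → ℚ} (h : Sp g B μ) (h' : Sp g B μ')
    (s s' : ℚ) : Sp g B fun i => s * μ i + s' * μ' i := by
  obtain ⟨z, hz, hz'⟩ := h
  obtain ⟨y, hy, hy'⟩ := h'
  refine ⟨fun b => s * z b + s' * y b, fun b hb => by simp [hz b hb, hy b hb], fun i => ?_⟩
  beta_reduce
  rw [← hz' i, ← hy' i, Finset.mul_sum, Finset.mul_sum, ← Finset.sum_add_distrib]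
  exact Finset.sum_congr rfl fun b _ => by ring

theorem sp_smul {B : Finset (Fin N0)} {μ : Fin p → ℚ} (h : Sp g B μ) (s : ℚ) :
    Sp g B fun i => s * μ i := by
  have h1 := sp_lin h h s 0
  simpa using h1

theorem sp_of_cog {B : Finset (Fin N0)} {μ : Fin p → ℚ} (h : CoG g B μ) : Sp g B μ := by
  obtain ⟨e, -, h1, h2⟩ := h
  exact ⟨e, h1, h2⟩

/-- the value of a linear form -/
def lv (l μ : Fin p → ℚ) : ℚ := ∑ i, l i * μ i

theorem lv_lin (l μ μ' : Fin p → ℚ) (s s' : ℚ) :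
    lv l (fun i => s * μ i + s' * μ' i) = s * lv l μ + s' * lv l μ' := by
  unfold lv
  rw [Finset.mul_sum, Finset.mul_sum, ← Finset.sum_add_distrib]
  exact Finset.sum_congr rfl fun i _ => by ring

theorem lv_mu (l : Fin p → ℚ) (t : ℚ) : lv l (mu lam κ t) = lv l lam + t * lv l κ := by
  unfold lv
  rw [Finset.mul_sum, ← Finset.sum_add_distrib]
  exact Finset.sum_congr rfl fun i _ => by ring

/-- general combinations -/
def Gen (g : Fin N0 → Fin p → ℤ) (κ lam : Fin p → ℚ) : Prop :=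
  ∀ B1 B2 : Finset (Fin N0), (∃ s : ℚ, Sp g B1 (mu lam κ s) ∧ Sp g B2 (mu lam κ s)) →
    ∀ μ : Fin p → ℚ, ∃ s : ℚ, Sp g B1 (mu μ κ s) ∧ Sp g B2 (mu μ κ s)

/-- the linear form of the wall at the time `s` -/
def Wl (g : Fin N0 → Fin p → ℤ) (lam κ : Fin p → ℚ) (s : ℚ) (l : Fin p → ℚ) : Prop :=
  (∃ B, Sp g B (mu lam κ s) ∧ ¬ Sp g B κ) ∧ lv l κ = -1 ∧
    ∀ B, Sp g B (mu lam κ s) → ¬ Sp g B κ →
      ∀ μ, Sp g B (mu μ κ (lv l μ)) ∧ (Sp g B μ → lv l μ = 0)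

/-- there is no wall at the time `s` -/
def NoWl (g : Fin N0 → Fin p → ℤ) (lam κ : Fin p → ℚ) (s : ℚ) : Prop :=
  ∀ B, Sp g B (mu lam κ s) → Sp g B κ

theorem wl_zero {s : ℚ} {l : Fin p → ℚ} (h : Wl g lam κ s l) : lv l (mu lam κ s) = 0 := by
  obtain ⟨⟨B, h1, h2⟩, -, h3⟩ := h
  exact (h3 B h1 h2 _).2 h1

theorem exists_wl (hG : Gen g κ lam) {s : ℚ} (hN : ¬ NoWl g lam κ s) : ∃ l, Wl g lam κ s l := by
  classical
  unfold NoWl at hN
  push Not at hN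
  obtain ⟨B0, hB0, hκ⟩ := hN
  have huniq : ∀ {B : Finset (Fin N0)}, ¬ Sp g B κ → ∀ {μ : Fin p → ℚ} {r r' : ℚ},
      Sp g B (mu μ κ r) → Sp g B (mu μ κ r') → r = r' := by
    intro B hB μ r r' h h'
    by_contra hne
    apply hB
    have h1 := sp_smul (sp_lin h h' 1 (-1)) (1 / (r - r'))
    have h2 : (fun i => 1 / (r - r') * (1 * mu μ κ r i + -1 * mu μ κ r' i)) = κ := by
      funext i
      have h3 : r - r' ≠ 0 := sub_ne_zero.2 hne
      field_simp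
      ring
    rwa [h2] at h1
  have h1 : ∀ i : Fin p, ∃ r : ℚ, Sp g B0 (mu (Pi.single i 1) κ r) := fun i => by
    obtain ⟨r, hr, -⟩ := hG B0 B0 ⟨s, hB0, hB0⟩ (Pi.single i 1)
    exact ⟨r, hr⟩
  choose l hl using h1
  have h2 : ∀ μ, Sp g B0 (mu μ κ (lv l μ)) := by
    intro μ
    choose z hz hz' using hl
    refine ⟨fun b => ∑ i, μ i * z i b, fun b hb => ?_, fun i => ?_⟩
    · exact Finset.sum_eq_zero fun i _ => by rw [hz i b hb, mul_zero]
    · have h3 : ∑ b, (∑ j, μ j * z j b) * (g b i : ℚ) = ∑ j, μ j * ∑ b, z j b * (g b i : ℚ) := by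
        simp only [Finset.sum_mul, Finset.mul_sum]
        rw [Finset.sum_comm]
        exact Finset.sum_congr rfl fun j _ => Finset.sum_congr rfl fun b _ => by ring
      rw [h3]
      have h4 : ∀ j, ∑ b, z j b * (g b i : ℚ) = (Pi.single j 1 : Fin p → ℚ) i + l j * κ i :=
        fun j => hz' j i
      simp only [h4]
      unfold lv
      have h5 : ∑ j, μ j * ((Pi.single j 1 : Fin p → ℚ) i + l j * κ i) =
          ∑ j, μ j * (Pi.single j 1 : Fin p → ℚ) i + (∑ j, l j * μ j) * κ i := by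
        rw [Finset.sum_mul, ← Finset.sum_add_distrib]
        exact Finset.sum_congr rfl fun j _ => by ring
      rw [h5]
      congr 1
      rw [Finset.sum_eq_single i]
      · simp
      · intro j _ hj
        rw [Pi.single_eq_of_ne (Ne.symm hj), mul_zero]
      · intro h
        exact absurd (Finset.mem_univ i) h
  refine ⟨l, ⟨B0, hB0, hκ⟩, ?_, fun B hB hBκ μ => ?_⟩
  · have h3 := h2 κ
    have h4 : Sp g B0 (mu κ κ (-1)) := by
      refine ⟨fun _ => 0, fun _ _ => rfl, fun i => ?_⟩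
      change _ = κ i + -1 * κ i
      simp
    exact huniq hκ h3 h4
  · obtain ⟨r, hr0, hr⟩ := hG B0 B ⟨s, hB0, hB⟩ μ
    have h3 := huniq hκ hr0 (h2 μ)
    rw [h3] at hr
    refine ⟨hr, fun hμ => ?_⟩
    have h4 : Sp g B (mu μ κ 0) := by
      have : mu μ κ 0 = μ := by
        funext i
        simp
      rw [this]
      exact hμ
    exact huniq hBκ hr h4

/-- independent sets of generators -/
def IndB (g : Fin N0 → Fin p → ℤ) (B : Finset (Fin N0)) : Prop :=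
  ∀ z : Fin N0 → ℚ, (∀ b, b ∉ B → z b = 0) → (∀ i, ∑ b, z b * g b i = 0) → ∀ b, z b = 0

/-- the coordinates with respect to a basis -/
theorem exists_coord {B : Finset (Fin N0)} (hi : IndB g B) (hs : ∀ μ, Sp g B μ) :
    ∃ z : Fin p → Fin N0 → ℚ, (∀ i b, b ∉ B → z i b = 0) ∧
      (∀ (μ : Fin p → ℚ) i, ∑ b, (∑ j, μ j * z j b) * (g b i : ℚ) = μ i) ∧
      ∀ (μ : Fin p → ℚ) (e : Fin N0 → ℚ), (∀ b, b ∉ B → e b = 0) → (∀ i, ∑ b, e b * g b i = μ i) →
        ∀ b, e b = ∑ j, μ j * z j b := by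
  classical
  choose z hz hz' using fun i : Fin p => hs (Pi.single i 1)
  have h1 : ∀ (μ : Fin p → ℚ) i, ∑ b, (∑ j, μ j * z j b) * (g b i : ℚ) = μ i := by
    intro μ i
    have h3 : ∑ b, (∑ j, μ j * z j b) * (g b i : ℚ) = ∑ j, μ j * ∑ b, z j b * (g b i : ℚ) := by
      simp only [Finset.sum_mul, Finset.mul_sum]
      rw [Finset.sum_comm]
      exact Finset.sum_congr rfl fun j _ => Finset.sum_congr rfl fun b _ => by ring
    rw [h3]
    simp only [hz']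
    rw [Finset.sum_eq_single i]
    · simp
    · intro j _ hj
      rw [Pi.single_eq_of_ne (Ne.symm hj), mul_zero]
    · intro h
      exact absurd (Finset.mem_univ i) h
  refine ⟨z, hz, h1, fun μ e he he' b => ?_⟩
  have h2 := hi (fun b => e b - ∑ j, μ j * z j b) (fun b hb => by
    have : ∑ j, μ j * z j b = 0 := Finset.sum_eq_zero fun j _ => by rw [hz j b hb, mul_zero]
    simp [he b hb, this]) (fun i => by
    simp only [sub_mul, Finset.sum_sub_distrib]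
    rw [he', h1, sub_self]) b
  linarith

/-- `μ` is near `μ0` -/
def Nr (ε : ℚ) (μ0 μ : Fin p → ℚ) : Prop := ∀ i, |μ i - μ0 i| ≤ ε

theorem Nr.mono {ε ε' : ℚ} (h : ε ≤ ε') {μ0 μ : Fin p → ℚ} (hn : Nr ε μ0 μ) : Nr ε' μ0 μ :=
  fun i => (hn i).trans h

theorem nr_self {ε : ℚ} (h : 0 ≤ ε) (μ0 : Fin p → ℚ) : Nr ε μ0 μ0 := fun i => by simpa using h

/-- small changes keep positive coordinates nonnegative -/
theorem pos_near (z : Fin p → Fin N0 → ℚ) (μ0 : Fin p → ℚ) :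
    ∃ ε : ℚ, 0 < ε ∧ ∀ μ, Nr ε μ0 μ → ∀ b, 0 < ∑ j, μ0 j * z j b → 0 ≤ ∑ j, μ j * z j b := by
  classical
  have key : ∀ b, ∃ ε : ℚ, 0 < ε ∧ ∀ μ, Nr ε μ0 μ →
      0 < ∑ j, μ0 j * z j b → 0 ≤ ∑ j, μ j * z j b := by
    intro b
    by_cases h : 0 < ∑ j, μ0 j * z j b
    swap
    · exact ⟨1, one_pos, fun μ _ h' => absurd h' h⟩
    obtain ⟨Z, hZ⟩ : ∃ Z, Z = ∑ j, |z j b| + 1 := ⟨_, rfl⟩
    have hZ0 : 0 < Z := by
      rw [hZ]
      have : 0 ≤ ∑ j, |z j b| := Finset.sum_nonneg fun j _ => abs_nonneg _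
      linarith
    refine ⟨(∑ j, μ0 j * z j b) / Z, div_pos h hZ0, fun μ hμ _ => ?_⟩
    have h1 : ∑ j, μ0 j * z j b - ∑ j, μ j * z j b ≤
        (∑ j, μ0 j * z j b) / Z * ∑ j, |z j b| := by
      rw [← Finset.sum_sub_distrib, Finset.mul_sum]
      refine Finset.sum_le_sum fun j _ => ?_
      have h2 : μ0 j * z j b - μ j * z j b = (μ0 j - μ j) * z j b := by ring
      rw [h2]
      refine (le_abs_self _).trans ?_
      rw [abs_mul]
      refine mul_le_mul_of_nonneg_right ?_ (abs_nonneg _)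
      rw [abs_sub_comm]
      exact hμ j
    have h2 : (∑ j, μ0 j * z j b) / Z * ∑ j, |z j b| ≤ ∑ j, μ0 j * z j b := by
      have h3 : ∑ j, |z j b| ≤ Z := by
        rw [hZ]
        linarith
      calc (∑ j, μ0 j * z j b) / Z * ∑ j, |z j b| ≤ (∑ j, μ0 j * z j b) / Z * Z :=
            mul_le_mul_of_nonneg_left h3 (div_pos h hZ0).le
        _ = _ := by field_simp
    linarith
  choose ε hε h using key
  rcases isEmpty_or_nonempty (Fin N0) with hE | hne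
  · exact ⟨1, one_pos, fun μ _ b => (hE.false b).elim⟩
  obtain ⟨b0, -, hb0⟩ := Finset.exists_min_image (Finset.univ : Finset (Fin N0)) ε
    Finset.univ_nonempty
  exact ⟨ε b0, hε b0, fun μ hμ b hb => h b μ (hμ.mono (hb0 b (Finset.mem_univ b))) hb⟩

/-- the combinations near the point of time `t` which satisfy `S` are in the cone of `B` -/
def LocC (g : Fin N0 → Fin p → ℤ) (lam κ : Fin p → ℚ) (B : Finset (Fin N0)) (t : ℚ)
    (S : (Fin p → ℚ) → Prop) : Prop :=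
  ∃ ε : ℚ, 0 < ε ∧ ∀ μ, Nr ε (mu lam κ t) μ → S μ → CoG g B μ

/-- the data of a basis which is optimal at the time `s'` -/
structure BasAt (g : Fin N0 → Fin p → ℤ) (lam κ : Fin p → ℚ) (o : Fin N0 → ℚ) (s' : ℚ)
    (J : Set ℚ) (B : Finset (Fin N0)) (e : Fin N0 → ℚ) : Prop where
  rp : Rp g e (mu lam κ s')
  opt : ∀ e', Rp g e' (mu lam κ s') → ∑ b, e b * o b ≤ ∑ b, e' b * o b
  sup : ∀ b, e b = 0 ↔ b ∉ B
  ind : IndB g B
  spn : ∀ μ, Sp g B μ
  fe : ∀ t ∈ J, FeB g lam κ B t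

theorem exists_bas (hG : Gen g κ lam) {o : Fin N0 → ℚ}
    (hbd : ∀ μ, ∃ v0 : ℚ, ∀ e, Rp g e μ → v0 ≤ ∑ b, e b * o b)
    {J : Set ℚ} {s s' : ℚ} (hs : s ∈ J) (hlt : s < s') (hJ : ∀ t ∈ J, s ≤ t)
    (hmin : ∀ a ∈ Bk g lam κ, s < a → s' < a)
    (hmax : ∀ a ∈ Bk g lam κ, s' ≤ a → ∀ t ∈ J, t ≤ a)
    (hfe : FeB g lam κ Finset.univ s') :
    ∃ B e, BasAt g lam κ o s' J B e := by
  classical
  obtain ⟨hs'0, e0, ha0, -, hc0⟩ := hfe
  obtain ⟨v0, hv0⟩ := hbd fun i => lam i + s' * κ i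
  obtain ⟨e, he, hi, hopt⟩ := exists_min (w := fun b i => (g b i : ℚ)) (c := o) (v0 := v0)
    (μ := fun i => lam i + s' * κ i) (fun e he => hv0 e he) ⟨e0, ha0, hc0⟩
  obtain ⟨B, hB⟩ : ∃ B : Finset (Fin N0), B = Finset.univ.filter fun b => e b ≠ 0 := ⟨_, rfl⟩
  have hB1 : ∀ b, e b = 0 ↔ b ∉ B := by
    intro b
    rw [hB]
    simp
  have hB2 : FeB g lam κ B s' := ⟨hs'0, e, he.1, fun b hb => (hB1 b).2 hb, he.2⟩
  have hfJ : ∀ t ∈ J, FeB g lam κ B t := by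
    intro t ht
    obtain ⟨a, ha, hamin⟩ := feb_min ⟨s', hB2⟩
    have has : a ≤ s := by
      by_contra hcon
      push Not at hcon
      have h1 := hmin a ⟨B, ha, Or.inl hamin⟩ hcon
      have h2 := hamin s' hB2
      linarith
    have hst := hJ t ht
    rcases le_total t s' with h | h
    · exact feb_conv ha hB2 (has.trans hst) h
    · by_cases hbb : ∃ M, ∀ t, FeB g lam κ B t → t ≤ M
      · obtain ⟨M, hM⟩ := hbb
        obtain ⟨a', ha', hamax⟩ := feb_max ⟨s', hB2⟩ hM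
        exact feb_conv hB2 ha' h (hmax a' ⟨B, ha', Or.inr hamax⟩ (hamax s' hB2) t ht)
      · push Not at hbb
        obtain ⟨t', ht', htt'⟩ := hbb t
        exact feb_conv hB2 ht' h htt'.le
  -- the direction is in the span
  have hκ : Sp g B κ := by
    have h1 := sp_of_cog (hfJ s hs).2
    have h2 := sp_of_cog hB2.2
    have h3 := sp_smul (sp_lin h2 h1 1 (-1)) (1 / (s' - s))
    have h4 : (fun i => 1 / (s' - s) * (1 * (lam i + s' * κ i) + -1 * (lam i + s * κ i))) = κ := by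
      funext i
      have h5 : s' - s ≠ 0 := by linarith
      field_simp
      ring
    rwa [h4] at h3
  refine ⟨B, e, he, hopt, hB1, fun z hz hz' => hi z (fun b hb => hz b ((hB1 b).1 hb)) hz',
    fun μ => ?_, hfJ⟩
  obtain ⟨r, hr, -⟩ := hG B B ⟨s', sp_of_cog hB2.2, sp_of_cog hB2.2⟩ μ
  have h1 := sp_lin hr hκ 1 (-r)
  have h2 : (fun i => 1 * mu μ κ r i + -r * κ i) = μ := by
    funext i
    change 1 * (μ i + r * κ i) + -r * κ i = μ i
    ring
  rwa [h2] at h1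

variable {o : Fin N0 → ℚ} {s' : ℚ} {J : Set ℚ} {B : Finset (Fin N0)} {e : Fin N0 → ℚ}

/-- membership in the cone by coordinates -/
theorem cog_of_coord {z : Fin p → Fin N0 → ℚ} (hz : ∀ i b, b ∉ B → z i b = 0)
    (hz' : ∀ (μ : Fin p → ℚ) i, ∑ b, (∑ j, μ j * z j b) * (g b i : ℚ) = μ i) {μ : Fin p → ℚ}
    (h : ∀ b ∈ B, 0 ≤ ∑ j, μ j * z j b) : CoG g B μ := by
  have h1 : ∀ b, b ∉ B → ∑ j, μ j * z j b = 0 := fun b hb =>
    Finset.sum_eq_zero fun j _ => by rw [hz j b hb, mul_zero]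
  refine ⟨fun b => ∑ j, μ j * z j b, fun b => ?_, h1, hz' μ⟩
  by_cases hb : b ∈ B
  · exact h b hb
  · exact (h1 b hb).ge

theorem coord_mu (z : Fin p → Fin N0 → ℚ) (t : ℚ) (b : Fin N0) :
    ∑ j, mu lam κ t j * z j b = ∑ j, lam j * z j b + t * ∑ j, κ j * z j b := by
  rw [Finset.mul_sum, ← Finset.sum_add_distrib]
  exact Finset.sum_congr rfl fun j _ => by ring

/-- the coordinates at the times -/
theorem BasAt.coord (h : BasAt g lam κ o s' J B e) {z : Fin p → Fin N0 → ℚ}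
    (hz : ∀ (μ : Fin p → ℚ) (e : Fin N0 → ℚ), (∀ b, b ∉ B → e b = 0) →
      (∀ i, ∑ b, e b * g b i = μ i) → ∀ b, e b = ∑ j, μ j * z j b) :
    (∀ b ∈ B, 0 < ∑ j, mu lam κ s' j * z j b) ∧
      ∀ t ∈ J, ∀ b, 0 ≤ ∑ j, mu lam κ t j * z j b := by
  refine ⟨fun b hb => ?_, fun t ht b => ?_⟩
  · rw [← hz _ e (fun b hb => (h.sup b).2 hb) h.rp.2 b]
    refine lt_of_le_of_ne (h.rp.1 b) fun h0 => ?_
    exact (h.sup b).1 h0.symm hb
  · obtain ⟨-, e', h1, h2, h3⟩ := h.fe t ht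
    rw [← hz _ e' h2 h3 b]
    exact h1 b

/-- **Interior times.** -/
theorem BasAt.inner (h : BasAt g lam κ o s' J B e) {t : ℚ}
    (ht : t = s' ∨ ∃ t1 ∈ J, (s' < t ∧ t < t1) ∨ (t1 < t ∧ t < s')) :
    LocC g lam κ B t fun _ => True := by
  obtain ⟨z, hz1, hz2, hz3⟩ := exists_coord h.ind h.spn
  obtain ⟨hc1, hc2⟩ := h.coord hz3
  obtain ⟨ε, hε, hpos⟩ := pos_near z (mu lam κ t)
  refine ⟨ε, hε, fun μ hμ _ => cog_of_coord hz1 hz2 fun b hb => hpos μ hμ b ?_⟩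
  rcases ht with rfl | ⟨t1, ht1, h1⟩
  · exact hc1 b hb
  · have h2 := hc1 b hb
    have h3 := hc2 t1 ht1 b
    rw [coord_mu] at h2 h3 ⊢
    obtain ⟨x, hx⟩ : ∃ x, x = ∑ j, lam j * z j b := ⟨_, rfl⟩
    obtain ⟨y, hy⟩ : ∃ y, y = ∑ j, κ j * z j b := ⟨_, rfl⟩
    rw [← hx, ← hy] at h2 h3 ⊢
    rcases h1 with ⟨h4, h5⟩ | ⟨h4, h5⟩
    · have h6 : 0 < (t1 - s') * (x + t * y) := by
        have h7 : (t1 - s') * (x + t * y) = (t1 - t) * (x + s' * y) + (t - s') * (x + t1 * y) := by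
          ring
        rw [h7]
        exact add_pos_of_pos_of_nonneg (mul_pos (by linarith) h2) (mul_nonneg (by linarith) h3)
      exact (mul_pos_iff_of_pos_left (by linarith)).1 h6
    · have h6 : 0 < (s' - t1) * (x + t * y) := by
        have h7 : (s' - t1) * (x + t * y) = (t - t1) * (x + s' * y) + (s' - t) * (x + t1 * y) := by
          ring
        rw [h7]
        exact add_pos_of_pos_of_nonneg (mul_pos (by linarith) h2) (mul_nonneg (by linarith) h3)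
      exact (mul_pos_iff_of_pos_left (by linarith)).1 h6

/-- **The side of a wall.** -/
theorem BasAt.side (h : BasAt g lam κ o s' J B e) {s : ℚ} (hs : s ∈ J) (hne : s ≠ s') :
    (∀ l, Wl g lam κ s l → LocC g lam κ B s fun μ => 0 ≤ (s - s') * lv l μ) ∧
      (NoWl g lam κ s → LocC g lam κ B s fun _ => True) := by
  classical
  obtain ⟨z, hz1, hz2, hz3⟩ := exists_coord h.ind h.spn
  obtain ⟨hc1, hc2⟩ := h.coord hz3
  obtain ⟨ε, hε, hpos⟩ := pos_near z (mu lam κ s)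
  -- the coordinates which vanish
  have key : ∀ b ∈ B, ∑ j, mu lam κ s j * z j b = 0 →
      Sp g (B.erase b) (mu lam κ s) ∧ ¬ Sp g (B.erase b) κ := by
    intro b hb h0
    refine ⟨⟨fun b' => ∑ j, mu lam κ s j * z j b', fun b' hb' => ?_, hz2 _⟩, fun hκ => ?_⟩
    · by_cases hbb : b' = b
      · rw [hbb]
        exact h0
      · have h1 : b' ∉ B := fun h2 => hb' (Finset.mem_erase.2 ⟨hbb, h2⟩)
        exact Finset.sum_eq_zero fun j _ => by rw [hz1 j b' h1, mul_zero]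
    · obtain ⟨y, hy, hy'⟩ := hκ
      have h1 := hz3 κ y (fun b' hb' => hy b' fun h2 => hb' (Finset.mem_of_mem_erase h2)) hy' b
      rw [hy b (Finset.notMem_erase b B)] at h1
      have h2 := hc1 b hb
      rw [coord_mu] at h0 h2
      rw [← h1] at h0 h2
      linarith
  refine ⟨fun l hl => ⟨ε, hε, fun μ hμ hside => cog_of_coord hz1 hz2 fun b hb => ?_⟩,
    fun hno => ⟨ε, hε, fun μ hμ _ => cog_of_coord hz1 hz2 fun b hb => ?_⟩⟩
  · rcases lt_or_eq_of_le (hc2 s hs b) with h1 | h1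
    · exact hpos μ hμ b h1
    · obtain ⟨h2, h3⟩ := key b hb h1.symm
      obtain ⟨⟨y, hy, hy'⟩, -⟩ := hl.2.2 _ h2 h3 μ
      have h4 := hz3 _ y (fun b' hb' => hy b' fun h5 => hb' (Finset.mem_of_mem_erase h5)) hy' b
      rw [hy b (Finset.notMem_erase b B)] at h4
      have h5 := hc1 b hb
      rw [coord_mu] at h1 h4 h5
      obtain ⟨x, hx⟩ : ∃ x, x = ∑ j, lam j * z j b := ⟨_, rfl⟩
      obtain ⟨w, hw⟩ : ∃ w, w = ∑ j, κ j * z j b := ⟨_, rfl⟩
      obtain ⟨v, hv⟩ : ∃ v, v = ∑ j, μ j * z j b := ⟨_, rfl⟩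
      rw [← hx, ← hw] at h1 h5
      rw [← hv, ← hw] at h4
      rw [← hv]
      -- `v = - l(μ) w`, `(s' - s) w > 0`
      have h6 : 0 < (s' - s) * w := by
        have : x = - (s * w) := by linarith
        rw [this] at h5
        linarith
      have h7 : (s' - s) * v = (s - s') * lv l μ * w := by
        have : v = - (lv l μ * w) := by linarith
        rw [this]
        ring
      rcases lt_or_gt_of_ne hne with h8 | h8
      · have h9 : 0 < w := (mul_pos_iff_of_pos_left (by linarith)).1 h6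
        have h10 : 0 ≤ (s' - s) * v := by
          rw [h7]
          exact mul_nonneg hside h9.le
        exact nonneg_of_mul_nonneg_right h10 (by linarith)
      · have h9 : w < 0 := by nlinarith
        have h10 : (s' - s) * v ≤ 0 := by
          rw [h7]
          exact mul_nonpos_of_nonneg_of_nonpos hside h9.le
        nlinarith
  · rcases lt_or_eq_of_le (hc2 s hs b) with h1 | h1
    · exact hpos μ hμ b h1
    · obtain ⟨h2, h3⟩ := key b hb h1.symm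
      exact absurd (hno _ h2) h3

/-- **The optimal values on the cone of the basis are linear.** -/
theorem BasAt.value (h : BasAt g lam κ o s' J B e) :
    ∃ d : Fin p → ℚ, ∀ μ, CoG g B μ → Opt g o μ (-(lv d μ)) := by
  obtain ⟨z, hz1, hz2, hz3⟩ := exists_coord h.ind h.spn
  refine ⟨fun i => - ∑ b, z i b * o b, fun μ hμ => ?_⟩
  obtain ⟨e', h1, h2, h3⟩ := hμ
  have hv : ∑ b, e' b * o b = -(lv (fun i => - ∑ b, z i b * o b) μ) := by
    unfold lv
    rw [← Finset.sum_neg_distrib]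
    have h4 : ∑ b, e' b * o b = ∑ b, ∑ j, μ j * (z j b * o b) := by
      refine Finset.sum_congr rfl fun b _ => ?_
      rw [hz3 μ e' h2 h3 b, Finset.sum_mul]
      exact Finset.sum_congr rfl fun j _ => by ring
    rw [h4, Finset.sum_comm]
    refine Finset.sum_congr rfl fun j _ => ?_
    rw [← Finset.mul_sum]
    ring
  rw [← hv]
  refine ⟨fun e'' he'' => ?_, e', ⟨h1, h3⟩, rfl⟩
  exact opt_of_supp (v := ∑ b, e b * o b) ⟨h.opt, e, h.rp, rfl⟩ h.rp rfl ⟨h1, h3⟩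
    (fun b hb => h2 b ((h.sup b).1 hb)) he''

/-- a uniform bound for the neighbourhoods -/
theorem loc_unif (g : Fin N0 → Fin p → ℤ) (lam κ : Fin p → ℚ) (t : ℚ)
    (S : (Fin p → ℚ) → Prop) : ∃ ε : ℚ, 0 < ε ∧ ∀ B, LocC g lam κ B t S →
      ∀ μ, Nr ε (mu lam κ t) μ → S μ → CoG g B μ := by
  classical
  have key : ∀ B : Finset (Fin N0), ∃ ε : ℚ, 0 < ε ∧ (LocC g lam κ B t S →
      ∀ μ, Nr ε (mu lam κ t) μ → S μ → CoG g B μ) := by
    intro B
    by_cases h : LocC g lam κ B t S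
    · obtain ⟨ε, hε, h1⟩ := h
      exact ⟨ε, hε, fun _ => h1⟩
    · exact ⟨1, one_pos, fun h' => absurd h' h⟩
  choose ε hε h using key
  obtain ⟨B0, -, hB0⟩ := Finset.exists_min_image (Finset.univ : Finset (Finset (Fin N0))) ε
    ⟨∅, Finset.mem_univ _⟩
  exact ⟨ε B0, hε B0, fun B hB μ hμ hS => h B hB μ (hμ.mono (hB0 B (Finset.mem_univ B))) hS⟩

/-- the optimal values are given by the linear forms `d P` near the point of time `t`, on the set
`S` -/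
def LocA (g : Fin N0 → Fin p → ℤ) (lam κ : Fin p → ℚ) (Dv : Q → Prop) (o : Q → Fin N0 → ℚ)
    (t : ℚ) (S : (Fin p → ℚ) → Prop) (d : Q → Fin p → ℚ) : Prop :=
  ∃ ε : ℚ, 0 < ε ∧ ∀ μ, Nr ε (mu lam κ t) μ → S μ → ∀ P, Dv P → Opt g (o P) μ (-(lv (d P) μ))

/-- the data of a chamber -/
def Chm (g : Fin N0 → Fin p → ℤ) (lam κ : Fin p → ℚ) (Dv : Q → Prop) (o : Q → Fin N0 → ℚ)
    (s' : ℚ) (J : Set ℚ) (d : Q → Fin p → ℚ) : Prop :=
  ∀ P, Dv P → ∃ B e, BasAt g lam κ (o P) s' J B e ∧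
    ∀ μ, CoG g B μ → Opt g (o P) μ (-(lv (d P) μ))

theorem Chm.loc {Dv : Q → Prop} {o : Q → Fin N0 → ℚ} {d : Q → Fin p → ℚ}
    (h : Chm g lam κ Dv o s' J d) {t : ℚ} {S : (Fin p → ℚ) → Prop}
    (hS : ∀ P B e, BasAt g lam κ (o P) s' J B e → LocC g lam κ B t S) :
    LocA g lam κ Dv o t S d := by
  obtain ⟨ε, hε, h1⟩ := loc_unif g lam κ t S
  refine ⟨ε, hε, fun μ hμ hSμ P hP => ?_⟩
  obtain ⟨B, e, hB, h2⟩ := h P hP
  exact h2 μ (h1 B (hS P B e hB) μ hμ hSμ)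

theorem Chm.inner {Dv : Q → Prop} {o : Q → Fin N0 → ℚ} {d : Q → Fin p → ℚ}
    (h : Chm g lam κ Dv o s' J d) {t : ℚ}
    (ht : t = s' ∨ ∃ t1 ∈ J, (s' < t ∧ t < t1) ∨ (t1 < t ∧ t < s')) :
    LocA g lam κ Dv o t (fun _ => True) d := h.loc fun _ _ _ hB => hB.inner ht

theorem Chm.left {Dv : Q → Prop} {o : Q → Fin N0 → ℚ} {d : Q → Fin p → ℚ}
    (h : Chm g lam κ Dv o s' J d) {s : ℚ} (hs : s ∈ J) (hne : s' < s) :
    (∀ l, Wl g lam κ s l → LocA g lam κ Dv o s (fun μ => 0 ≤ lv l μ) d) ∧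
      (NoWl g lam κ s → LocA g lam κ Dv o s (fun _ => True) d) := by
  refine ⟨fun l hl => h.loc fun P B e hB => ?_, fun hno => h.loc fun P B e hB =>
    (hB.side hs hne.ne').2 hno⟩
  obtain ⟨ε, hε, h1⟩ := (hB.side hs hne.ne').1 l hl
  exact ⟨ε, hε, fun μ hμ hS => h1 μ hμ (mul_nonneg (by linarith) hS)⟩

theorem Chm.right {Dv : Q → Prop} {o : Q → Fin N0 → ℚ} {d : Q → Fin p → ℚ}
    (h : Chm g lam κ Dv o s' J d) {s : ℚ} (hs : s ∈ J) (hne : s < s') :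
    (∀ l, Wl g lam κ s l → LocA g lam κ Dv o s (fun μ => lv l μ ≤ 0) d) ∧
      (NoWl g lam κ s → LocA g lam κ Dv o s (fun _ => True) d) := by
  refine ⟨fun l hl => h.loc fun P B e hB => ?_, fun hno => h.loc fun P B e hB =>
    (hB.side hs hne.ne).2 hno⟩
  obtain ⟨ε, hε, h1⟩ := (hB.side hs hne.ne).1 l hl
  exact ⟨ε, hε, fun μ hμ hS => h1 μ hμ (mul_nonneg_of_nonpos_of_nonpos (by linarith) hS)⟩

/-- the values along the segment -/
theorem Chm.seg {Dv : Q → Prop} {o : Q → Fin N0 → ℚ} {d : Q → Fin p → ℚ}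
    (h : Chm g lam κ Dv o s' J d) {t : ℚ} (ht : t ∈ J) {P : Q} (hP : Dv P) :
    Opt g (o P) (mu lam κ t) (-(lv (d P) lam + t * lv (d P) κ)) := by
  obtain ⟨B, e, hB, h2⟩ := h P hP
  rw [← lv_mu]
  exact h2 _ (hB.fe t ht).2

/-- **The chambers exist.** -/
theorem exists_chm (hG : Gen g κ lam) {Dv : Q → Prop} {o : Q → Fin N0 → ℚ}
    (hbd : ∀ P, Dv P → ∀ μ, ∃ v0 : ℚ, ∀ e, Rp g e μ → v0 ≤ ∑ b, e b * o P b)
    {J : Set ℚ} {s s' : ℚ} (hs : s ∈ J) (hlt : s < s') (hJ : ∀ t ∈ J, s ≤ t)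
    (hmin : ∀ a ∈ Bk g lam κ, s < a → s' < a)
    (hmax : ∀ a ∈ Bk g lam κ, s' ≤ a → ∀ t ∈ J, t ≤ a)
    (hfe : FeB g lam κ Finset.univ s') : ∃ d : Q → Fin p → ℚ, Chm g lam κ Dv o s' J d := by
  classical
  have h1 : ∀ P, ∃ d : Fin p → ℚ, Dv P → ∃ B e, BasAt g lam κ (o P) s' J B e ∧
      ∀ μ, CoG g B μ → Opt g (o P) μ (-(lv d μ)) := by
    intro P
    by_cases hP : Dv P
    · obtain ⟨B, e, hB⟩ := exists_bas hG (hbd P hP) hs hlt hJ hmin hmax hfe
      obtain ⟨d, hd⟩ := hB.value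
      exact ⟨d, fun _ => ⟨B, e, hB, hd⟩⟩
    · exact ⟨0, fun h => absurd h hP⟩
  choose d hd using h1
  exact ⟨d, hd⟩

end Pool.Agent.Helper15K1.MM
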