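import Pool.Agent.Helper15K1.MM.ExtP
import Pool.Agent.Helper15K1.MM.Cls

/-!
The minimal model program by extremal steps for combinations of divisors with finitely generated
multigraded ring of sections.
-/

set_option autoImplicit false
set_option linter.overlappingInstances false
set_option linter.unusedSectionVars false
set_option maxHeartbeats 1000000

open FF MvPolynomial Pool.Agent.W603.LV Pool.Agent.W602.GT Pool.Agent.W602.Cov
open Pool.Agent.TH756.PR Pool.Agent.TH122.AB Pool.Agent.TH756.PN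
open Pool.Agent.Q57.FT Pool.Agent.Q57.CX Pool.Agent.Q57.HK

namespace Pool.Agent.Helper15K1.MM

section gen

variable {p N0 : ℕ} {g : Fin N0 → Fin p → ℤ}

/-- the combinations whose lines in the direction `κ` meet both spans in a common point -/
def gsub (g : Fin N0 → Fin p → ℤ) (κ : Fin p → ℚ) (B1 B2 : Finset (Fin N0)) :
    Submodule ℚ (Fin p → ℚ) where
  carrier := {μ | ∃ s : ℚ, Sp g B1 (mu μ κ s) ∧ Sp g B2 (mu μ κ s)}
  zero_mem' := by
    refine ⟨0, ⟨fun _ => 0, fun _ _ => rfl, fun i => ?_⟩, ⟨fun _ => 0, fun _ _ => rfl,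
      fun i => ?_⟩⟩ <;> simp [mu]
  add_mem' := by
    rintro μ μ' ⟨s, h1, h2⟩ ⟨s', h1', h2'⟩
    have h3 : mu (μ + μ') κ (s + s') = fun i => 1 * mu μ κ s i + 1 * mu μ' κ s' i := by
      funext i
      change μ i + μ' i + (s + s') * κ i = 1 * (μ i + s * κ i) + 1 * (μ' i + s' * κ i)
      ring
    exact ⟨s + s', by rw [h3]; exact sp_lin h1 h1' 1 1, by rw [h3]; exact sp_lin h2 h2' 1 1⟩
  smul_mem' := by
    rintro c μ ⟨s, h1, h2⟩
    have h3 : mu (c • μ) κ (c * s) = fun i => c * mu μ κ s i := by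
      funext i
      change c * μ i + c * s * κ i = c * (μ i + s * κ i)
      ring
    exact ⟨c * s, by rw [h3]; exact sp_smul h1 c, by rw [h3]; exact sp_smul h2 c⟩

/-- **The general combinations** are those outside finitely many hyperplanes. -/
theorem exists_gen (g : Fin N0 → Fin p → ℤ) (κ : Fin p → ℚ) :
    ∃ Λ : Finset (Fin p → ℚ), (∀ l ∈ Λ, l ≠ 0) ∧
      ∀ lam, (∀ l ∈ Λ, lv l lam ≠ 0) → Gen g κ lam := by
  classical
  have h1 : ∀ B : Finset (Fin N0) × Finset (Fin N0), ∃ l : Fin p → ℚ, gsub g κ B.1 B.2 ≠ ⊤ →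
      l ≠ 0 ∧ ∀ μ ∈ gsub g κ B.1 B.2, lv l μ = 0 := by
    intro B
    by_cases hB : gsub g κ B.1 B.2 = ⊤
    · exact ⟨0, fun h => absurd hB h⟩
    obtain ⟨φ, hφ0, hφ⟩ := Submodule.exists_le_ker_of_lt_top _ (lt_top_iff_ne_top.2 hB)
    have h2 : ∀ μ : Fin p → ℚ, φ μ = lv (fun i => φ (Pi.single i 1)) μ := by
      intro μ
      unfold lv
      conv_lhs => rw [← Finset.univ_sum_single μ, map_sum]
      refine Finset.sum_congr rfl fun i _ => ?_
      have h3 : (Pi.single i (μ i) : Fin p → ℚ) = μ i • Pi.single i (1 : ℚ) := by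
        rw [← Pi.single_smul]
        simp
      rw [h3, map_smul, smul_eq_mul, mul_comm]
    refine ⟨fun i => φ (Pi.single i 1), fun _ => ⟨fun h0 => hφ0 ?_, fun μ hμ => ?_⟩⟩
    · ext1 i
      ext
      simpa using congrFun h0 i
    · rw [← h2]
      exact hφ hμ
  choose l hl using h1
  refine ⟨(Finset.univ.filter fun B : Finset (Fin N0) × Finset (Fin N0) =>
    gsub g κ B.1 B.2 ≠ ⊤).image l, fun x hx => ?_, fun lam hlam B1 B2 hs => ?_⟩
  · obtain ⟨B, hB, rfl⟩ := Finset.mem_image.1 hx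
    exact (hl B (Finset.mem_filter.1 hB).2).1
  · have h2 : gsub g κ B1 B2 = ⊤ := by
      by_contra hne
      refine hlam (l (B1, B2)) (Finset.mem_image.2 ⟨(B1, B2), Finset.mem_filter.2
        ⟨Finset.mem_univ _, hne⟩, rfl⟩) ?_
      exact (hl (B1, B2) hne).2 lam hs
    intro μ
    have h3 : μ ∈ gsub g κ B1 B2 := by
      rw [h2]
      exact Submodule.mem_top
    exact h3

end gen

variable {p N : ℕ} {K : Type} [Field K] [Algebra ℂ K] {N0 : ℕ} {g : Fin N0 → Fin p → ℤ}
  {f : Fin N0 → K} {δ : Fin p → Place ℂ K → ℚ} {κ lam : Fin p → ℚ}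

/-- semiample combinations have the optimal values of `δ` -/
theorem opt_of_semiA (h : Gns N δ g f) {μ : Fin p → ℚ} (hμ : SemiA N δ μ) {P : Place ℂ K}
    (hP : Divisorial N P) : Opt g (og f P) μ (-(lv (fun i => δ i P) μ)) := by
  have h0 : lv (fun i => δ i P) μ = ∑ i, μ i * δ i P :=
    Finset.sum_congr rfl fun i _ => mul_comm _ _
  rw [h0]
  obtain ⟨e, he, hle⟩ := semi_rp h hμ hP
  exact ⟨fun e' he' => low_bd h hP he', e, he, le_antisymm hle (low_bd h hP he)⟩

/-- near the point, in `S`, the semiample parts have the coefficients `δ'` -/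
def SemN (N : ℕ) (δ : Fin p → Place ℂ K → ℚ) (μ0 : Fin p → ℚ) (S : (Fin p → ℚ) → Prop)
    (δ' : Fin p → Place ℂ K → ℚ) : Prop :=
  ∃ ε : ℚ, 0 < ε ∧ ∀ μ, (∀ i, |μ i - μ0 i| ≤ ε) → S μ →
    SemP N δ μ fun P => ∑ i, μ i * δ' i P

theorem semN_of_loc (h : Gns N δ g f) {P0 : Place ℂ K} (hP0 : Divisorial N P0) {t : ℚ}
    {S : (Fin p → ℚ) → Prop} {d : Place ℂ K → Fin p → ℚ}
    (hA : LocA g lam κ (Divisorial N) (og f) t S d) :
    SemN N δ (mu lam κ t) S fun i P => d P i := by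
  obtain ⟨ε, hε, h1⟩ := hA
  refine ⟨ε, hε, fun μ hμ hS => ?_⟩
  obtain ⟨e, he, -⟩ := (h1 μ hμ hS P0 hP0).2
  have h2 : (fun P : Place ℂ K => ∑ i, μ i * d P i) = fun P => lv (d P) μ := by
    funext P
    exact Finset.sum_congr rfl fun i _ => mul_comm _ _
  rw [h2]
  exact semp_of_opt h ⟨e, he⟩ fun P hP => h1 μ hμ hS P hP

theorem SemN.mono {μ0 : Fin p → ℚ} {S S' : (Fin p → ℚ) → Prop} {δ' : Fin p → Place ℂ K → ℚ}
    (h : SemN N δ μ0 S δ') (hS : ∀ μ, S' μ → S μ) : SemN N δ μ0 S' δ' := by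
  obtain ⟨ε, hε, h1⟩ := h
  exact ⟨ε, hε, fun μ hμ hμS => h1 μ hμ (hS μ hμS)⟩

/-- the combinations on the other side of the last wall have no sections -/
theorem no_rep {P0 : Place ℂ K} (hP0 : Divisorial N P0) {T : ℚ} {l : Fin p → ℚ}
    (hl : Wl g lam κ T l) {d : Place ℂ K → Fin p → ℚ}
    (hA : LocA g lam κ (Divisorial N) (og f) T (fun μ => 0 ≤ lv l μ) d)
    (hT0 : 0 ≤ T) (hmax : ∀ t, FeB g lam κ Finset.univ t → t ≤ T) {μ : Fin p → ℚ}
    (hμ : lv l μ < 0) {e : Fin N0 → ℚ} (he : Rp g e μ) : False := by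
  obtain ⟨ε, hε, h1⟩ := hA
  obtain ⟨c, hc⟩ : ∃ c, c = - lv l μ := ⟨_, rfl⟩
  have hc0 : 0 < c := by rw [hc]; linarith
  obtain ⟨C, hC0, hC⟩ : ∃ C : ℚ, 0 < C ∧ ∀ i, |κ i| + |μ i - mu lam κ T i| / c ≤ C := by
    refine ⟨∑ i, (|κ i| + |μ i - mu lam κ T i| / c) + 1, by positivity, fun i => ?_⟩
    have := Finset.single_le_sum (f := fun i => |κ i| + |μ i - mu lam κ T i| / c)
      (fun i _ => by positivity) (Finset.mem_univ i)
    linarith
  obtain ⟨s, hs⟩ : ∃ s, s = min (c / 2) (ε / (2 * C)) := ⟨_, rfl⟩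
  have hs0 : 0 < s := by
    rw [hs]
    exact lt_min (by linarith) (by positivity)
  have hsc : s ≤ c / 2 := by rw [hs]; exact min_le_left _ _
  have hsε : s ≤ ε / (2 * C) := by rw [hs]; exact min_le_right _ _
  obtain ⟨θ, hθ⟩ : ∃ θ, θ = s / c := ⟨_, rfl⟩
  have hθ0 : 0 < θ := by rw [hθ]; positivity
  have hθ1 : θ ≤ 1 / 2 := by
    rw [hθ, div_le_iff₀ hc0]
    linarith
  have h1θ : 0 < 1 - θ := by linarith
  obtain ⟨x, hx⟩ : ∃ x : Fin p → ℚ, x = fun i => 1 / (1 - θ) * mu lam κ (T + s) i +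
    -(θ / (1 - θ)) * μ i := ⟨_, rfl⟩
  have hlx : lv l x = 0 := by
    rw [hx, lv_lin, lv_mu]
    have h2 := wl_zero hl
    rw [lv_mu, hl.2.1] at h2
    have h3 : lv l μ = -c := by rw [hc]; ring
    rw [hl.2.1, h3]
    have h4 : lv l lam = T := by linarith
    rw [h4, hθ]
    field_simp
    ring
  have hnear : Nr ε (mu lam κ T) x := by
    intro i
    have h2 : x i - mu lam κ T i = 1 / (1 - θ) * (s * κ i - θ * (μ i - mu lam κ T i)) := by
      rw [hx]
      change 1 / (1 - θ) * (lam i + (T + s) * κ i) + -(θ / (1 - θ)) * μ i - (lam i + T * κ i) =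
        1 / (1 - θ) * (s * κ i - θ * (μ i - (lam i + T * κ i)))
      field_simp
      ring
    rw [h2, abs_mul, abs_of_pos (by positivity : 0 < 1 / (1 - θ))]
    have h3 : |s * κ i - θ * (μ i - mu lam κ T i)| ≤ s * C := by
      calc |s * κ i - θ * (μ i - mu lam κ T i)| ≤ |s * κ i| + |θ * (μ i - mu lam κ T i)| :=
            abs_sub _ _
        _ = s * |κ i| + θ * |μ i - mu lam κ T i| := by
            rw [abs_mul, abs_mul, abs_of_pos hs0, abs_of_pos hθ0]
        _ = s * (|κ i| + |μ i - mu lam κ T i| / c) := by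
            rw [hθ]
            ring
        _ ≤ s * C := mul_le_mul_of_nonneg_left (hC i) hs0.le
    have h4 : 1 / (1 - θ) ≤ 2 := by
      rw [div_le_iff₀ h1θ]
      linarith
    calc 1 / (1 - θ) * |s * κ i - θ * (μ i - mu lam κ T i)| ≤ 2 * (s * C) :=
          mul_le_mul h4 h3 (abs_nonneg _) (by norm_num)
      _ ≤ 2 * (ε / (2 * C) * C) := by
          have := mul_le_mul_of_nonneg_right hsε hC0.le
          linarith
      _ = ε := by field_simp
  obtain ⟨e', he', -⟩ := (h1 x hnear hlx.ge P0 hP0).2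
  have h2 := rp_add (rp_smul he' h1θ.le) (rp_smul he hθ0.le)
  have h3 : (fun i => (1 - θ) * x i + θ * μ i) = fun i => lam i + (T + s) * κ i := by
    funext i
    rw [hx]
    change (1 - θ) * (1 / (1 - θ) * (lam i + (T + s) * κ i) + -(θ / (1 - θ)) * μ i) + θ * μ i = _
    field_simp
    ring
  rw [h3] at h2
  have h4 := hmax (T + s) ⟨by linarith, _, h2.1, fun b hb => absurd (Finset.mem_univ b) hb, h2.2⟩
  linarith

/-- **The program by extremal steps.** -/
theorem main_ext (h : (coxRing N δ).FG) (hN : 1 ≤ N) (htr : Algebra.trdeg ℂ K = N)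
    (hpl : ∃ P : Place ℂ K, Divisorial N P) :
    ∃ B : ℕ, ∀ κ : Fin p → ℚ, ∃ Λ : Finset (Fin p → ℚ), (∀ l ∈ Λ, l ≠ 0) ∧
      ∀ lam : Fin p → ℚ, Amp N δ lam → (∀ l ∈ Λ, ∑ i, l i * lam i ≠ 0) →
      ∃ (L : ℕ) (τ : ℕ → ℚ) (δs : ℕ → Fin p → Place ℂ K → ℚ) (l : ℕ → Fin p → ℚ), L < B ∧
        (τ 0 = 0 ∧ ∀ P, Divisorial N P → ∀ i, δs 0 i P = δ i P) ∧
        (∀ j < L, τ j < τ (j + 1)) ∧
        (∀ j < L, ∀ t, τ j < t → t < τ (j + 1) →
          SemN N δ (fun i => lam i + t * κ i) (fun _ => True) (δs j)) ∧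
        (∀ j < L, ∑ i, l j i * κ i < 0 ∧ ∑ i, l j i * (lam i + τ (j + 1) * κ i) = 0 ∧
          SemN N δ (fun i => lam i + τ (j + 1) * κ i) (fun μ => 0 ≤ ∑ i, l j i * μ i) (δs j) ∧
          SemN N δ (fun i => lam i + τ (j + 1) * κ i) (fun μ => ∑ i, l j i * μ i ≤ 0)
            (δs (j + 1))) ∧
        (∀ j < L, (∀ P, Divisorial N P → ∑ i, κ i * δs (j + 1) i P ≤ ∑ i, κ i * δs j i P) ∧
          ∃ P, Divisorial N P ∧ ∑ i, κ i * δs (j + 1) i P < ∑ i, κ i * δs j i P) ∧
        (((∀ t, τ L < t → SemN N δ (fun i => lam i + t * κ i) (fun _ => True) (δs L)) ∧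
            SemP N δ κ fun P => ∑ i, κ i * δs L i P) ∨
          ∃ (T : ℚ) (l' : Fin p → ℚ), τ L < T ∧
            (∀ t, τ L < t → t < T → SemN N δ (fun i => lam i + t * κ i) (fun _ => True) (δs L)) ∧
            ∑ i, l' i * κ i < 0 ∧ ∑ i, l' i * (lam i + T * κ i) = 0 ∧
            SemN N δ (fun i => lam i + T * κ i) (fun μ => 0 ≤ ∑ i, l' i * μ i) (δs L) ∧
            (∀ μ : Fin p → ℚ, ∑ i, l' i * μ i < 0 → ∀ (m : ℕ) (ν : Fin p → ℤ), 1 ≤ m →
              (∀ i, (m : ℚ) * μ i = ν i) → ∀ f, ZSec N δ ν f → f = 0) ∧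
            ¬ BigC N δ fun i => lam i + T * κ i) := by
  classical
  obtain ⟨N0, g, f, hg1, hg2⟩ := gens_of_fg h
  have hgen : Gns N δ g f := ⟨hg1, hg2⟩
  obtain ⟨B, hB⟩ := term_dir h
  obtain ⟨P0, hP0⟩ := hpl
  refine ⟨B, fun κ => ?_⟩
  obtain ⟨Λ, hΛ0, hΛ⟩ := exists_gen g κ
  refine ⟨Λ, hΛ0, fun lam hamp hlam => ?_⟩
  have hG : Gen g κ lam := hΛ lam hlam
  obtain ⟨ε, hε, hsemi⟩ := hamp
  obtain ⟨C, hC0, hC⟩ : ∃ C : ℚ, 0 < C ∧ ∀ i, |κ i| ≤ C := by
    refine ⟨∑ i, |κ i| + 1, by positivity, fun i => ?_⟩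
    have := Finset.single_le_sum (f := fun i => |κ i|) (fun i _ => abs_nonneg _)
      (Finset.mem_univ i)
    linarith
  obtain ⟨t0, ht0⟩ : ∃ t0, t0 = ε / (2 * C) := ⟨_, rfl⟩
  have ht00 : 0 < t0 := by rw [ht0]; positivity
  have hnear : ∀ t, 0 ≤ t → t ≤ t0 → ∀ i, |t * κ i| ≤ ε / 2 := by
    intro t h1 h2 i
    rw [abs_mul, abs_of_nonneg h1]
    calc t * |κ i| ≤ t0 * C := mul_le_mul h2 (hC i) (abs_nonneg _) ht00.le
      _ = ε / 2 := by
        rw [ht0]
        field_simp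
  have hsem0 : ∀ t, 0 ≤ t → t ≤ t0 → SemiA N δ (mu lam κ t) := fun t h1 h2 =>
    hsemi _ fun i => by
      have := hnear t h1 h2 i
      rw [show mu lam κ t i - lam i = t * κ i by
        change lam i + t * κ i - lam i = _
        ring]
      linarith
  have hfe : ∀ t, 0 ≤ t → t ≤ t0 → FeB g lam κ Finset.univ t := by
    intro t h1 h2
    obtain ⟨e, he, -⟩ := semi_rp hgen (hsem0 t h1 h2) hP0
    exact ⟨h1, e, he.1, fun b hb => absurd (Finset.mem_univ b) hb, he.2⟩
  obtain ⟨L, τ, d, l, hX⟩ :=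
    exists_prgX (g := g) (lam := lam) (κ := κ) (Dv := Divisorial N) (o := og f) hG
      (fun P hP μ => hbd hgen P hP μ) (hfe 0 le_rfl ht00.le) ⟨t0, ht00, hfe t0 ht00.le le_rfl⟩
  have hf0 := hfe 0 le_rfl ht00.le
  obtain ⟨t2, ht2, hft2⟩ := hX.last
  -- the times
  have hτm : ∀ j ≤ L, 0 ≤ τ j ∧ τ j ≤ τ L := by
    have h1 : ∀ j ≤ L, 0 ≤ τ j := by
      intro j
      induction j with
      | zero => exact fun _ => hX.start.ge
      | succ j ih => exact fun hj => (ih (by omega)).trans (hX.mono j (by omega)).le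
    have h2 : ∀ i, i ≤ L → τ (L - i) ≤ τ L := by
      intro i
      induction i with
      | zero => exact fun _ => le_rfl
      | succ i ih =>
        intro hi
        have h3 := hX.mono (L - (i + 1)) (by omega)
        have h4 : L - (i + 1) + 1 = L - i := by omega
        rw [h4] at h3
        exact h3.le.trans (ih (by omega))
    intro j hj
    refine ⟨h1 j hj, ?_⟩
    have h3 := h2 (L - j) (by omega)
    rwa [Nat.sub_sub_self hj] at h3
  have hfeas : ∀ t, 0 ≤ t → t ≤ t2 → FeB g lam κ Finset.univ t := fun t h0 h1 =>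
    feb_conv hf0 hft2 h0 h1
  have hrep : ∀ t, FeB g lam κ Finset.univ t → ∃ e, Rp g e (mu lam κ t) := by
    rintro t ⟨-, e, h1, -, h3⟩
    exact ⟨e, h1, h3⟩
  have hsegS : ∀ j t, FeB g lam κ Finset.univ t → SegV g lam κ (Divisorial N) (og f) t (d j) →
      SemP N δ (mu lam κ t) fun P => lv (d j P) lam + t * lv (d j P) κ := fun j t h1 h2 =>
    semp_of_opt hgen (hrep t h1) fun P hP => h2 P hP
  have hκd : ∀ (j : ℕ) (P : Place ℂ K), ∑ i, κ i * d j P i = lv (d j P) κ := fun j P =>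
    Finset.sum_congr rfl fun i _ => mul_comm _ _
  refine ⟨L, τ, fun j i P => d j P i, l, ?_, ⟨hX.start, fun P hP i => ?_⟩, hX.mono,
    fun j hj t h1 h2 => semN_of_loc hgen hP0 (hX.inner j hj t h1 h2), fun j hj => ⟨?_, ?_, ?_, ?_⟩,
    fun j hj => ?_, ?_⟩
  · -- the bound
    refine (hB κ).2 L (fun j i => lam i + τ j * κ i)
      (fun j P => lv (d j P) lam + τ j * lv (d j P) κ) (fun j P => lv (d j P) κ)
      (fun j hj => ?_) fun j hj => hX.neg j hj
    have key : ∀ b, τ j < b → (∀ t, τ j ≤ t → t ≤ b →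
        SemP N δ (mu lam κ t) fun P => lv (d j P) lam + t * lv (d j P) κ) →
        MdlD N δ κ (fun i => lam i + τ j * κ i)
          (fun P => lv (d j P) lam + τ j * lv (d j P) κ) (fun P => lv (d j P) κ) := by
      intro b hb hs
      refine ⟨b - τ j, by linarith, fun t h0 h1 => ?_⟩
      have h2 := hs (τ j + t) (by linarith) (by linarith)
      have h3 : mu lam κ (τ j + t) = fun i => lam i + τ j * κ i + t * κ i := by
        funext i
        change lam i + (τ j + t) * κ i = _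
        ring
      have h4 : (fun P => lv (d j P) lam + (τ j + t) * lv (d j P) κ) =
          fun P => lv (d j P) lam + τ j * lv (d j P) κ + t * lv (d j P) κ := by
        funext P
        ring
      rw [h3, h4] at h2
      exact h2
    rcases Nat.lt_or_ge j L with h1 | h1
    · refine key _ (hX.mono j h1) fun t h2 h3 => hsegS j t (hfeas t ((hτm j hj).1.trans h2) ?_)
        (hX.seg j h1 t h2 h3)
      exact h3.trans ((hτm (j + 1) h1).2.trans ht2.le)
    · obtain rfl : j = L := le_antisymm hj h1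
      exact key t2 ht2 fun t h2 h3 => hsegS j t (hfeas t ((hτm j le_rfl).1.trans h2) h3)
        (hX.segL t h2 (hfeas t ((hτm j le_rfl).1.trans h2) h3))
  · -- the first model
    obtain ⟨t, ht1, ht2', htA⟩ : ∃ t, 0 < t ∧ t ≤ t0 / 2 ∧
        LocA g lam κ (Divisorial N) (og f) t (fun _ => True) (d 0) := by
      rcases Nat.eq_zero_or_pos L with hL | hL
      · subst hL
        rw [hX.start] at ht2
        refine ⟨min (t0 / 2) (t2 / 2), lt_min (by linarith) (by linarith), min_le_left _ _,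
          hX.innerL _ ?_ ⟨t2, ?_, hft2⟩⟩
        · rw [hX.start]
          exact lt_min (by linarith) (by linarith)
        · exact lt_of_le_of_lt (min_le_right _ _) (by linarith)
      · have h1 := hX.mono 0 hL
        rw [hX.start, zero_add] at h1
        refine ⟨min (t0 / 2) (τ 1 / 2), lt_min (by linarith) (by linarith), min_le_left _ _,
          hX.inner 0 hL _ ?_ ?_⟩
        · rw [hX.start]
          exact lt_min (by linarith) (by linarith)
        · rw [zero_add]
          exact lt_of_le_of_lt (min_le_right _ _) (by linarith)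
    have htA' : LocA g lam κ (Divisorial N) (og f) t (fun _ => True) fun P i => δ i P := by
      refine ⟨ε / 2, by linarith, fun μ hμ _ P hP => opt_of_semiA hgen (hsemi μ fun i => ?_) hP⟩
      have h1 := hnear t ht1.le (by linarith) i
      have h2 := hμ i
      have h3 : μ i - lam i = (μ i - mu lam κ t i) + t * κ i := by
        change μ i - lam i = (μ i - (lam i + t * κ i)) + t * κ i
        ring
      rw [h3]
      calc |μ i - mu lam κ t i + t * κ i| ≤ |μ i - mu lam κ t i| + |t * κ i| := abs_add_le _ _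
        _ ≤ ε / 2 + ε / 2 := add_le_add h2 h1
        _ = ε := by ring
    exact congrFun (eq_full htA htA' hP) i
  · have := (hX.wall j hj).2.1
    change lv (l j) κ < 0
    linarith
  · exact wl_zero (hX.wall j hj)
  · exact semN_of_loc hgen hP0 (hX.left j hj)
  · exact semN_of_loc hgen hP0 (hX.right j hj)
  · simp only [hκd]
    exact hX.neg j hj
  · -- the end
    by_cases hub : ∃ M, ∀ t, FeB g lam κ Finset.univ t → t ≤ M
    · right
      obtain ⟨M, hM⟩ := hub
      obtain ⟨T, hT, hTmax⟩ := feb_max ⟨0, hf0⟩ hM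
      have hLT : τ L < T := lt_of_lt_of_le ht2 (hTmax t2 hft2)
      obtain ⟨hl1, hl2⟩ := hX.leftL T hLT hT hTmax
      have hnw : ¬ NoWl g lam κ T := by
        intro hno
        obtain ⟨ε', hε', h1⟩ := hl2 hno
        obtain ⟨e, he, -⟩ := (h1 (mu lam κ (T + ε' / C)) (fun i => by
          have h2 : mu lam κ (T + ε' / C) i - mu lam κ T i = ε' / C * κ i := by
            change lam i + (T + ε' / C) * κ i - (lam i + T * κ i) = _
            ring
          rw [h2, abs_mul, abs_of_pos (by positivity)]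
          calc ε' / C * |κ i| ≤ ε' / C * C := mul_le_mul_of_nonneg_left (hC i) (by positivity)
            _ = ε' := by field_simp) trivial P0 hP0).2
        have h2 : 0 < ε' / C := by positivity
        have h3 := hTmax (T + ε' / C) ⟨by linarith [hT.1], e, he.1,
          fun b hb => absurd (Finset.mem_univ b) hb, he.2⟩
        linarith
      obtain ⟨l', hl'⟩ := exists_wl hG hnw
      have hA := hl1 l' hl'
      refine ⟨T, l', hLT, fun t h1 h2 => semN_of_loc hgen hP0 (hX.innerL t h1 ⟨T, h2, hT⟩), ?_,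
        wl_zero hl', semN_of_loc hgen hP0 hA, fun μ hμ m ν hm hν η hη => ?_, fun hbig => ?_⟩
      · have := hl'.2.1
        change lv l' κ < 0
        linarith
      · by_contra h0
        obtain ⟨e, he, -⟩ := rp_of_sec hgen hm hν h0 hη P0
        exact no_rep hP0 hl' hA hT.1 hTmax hμ he
      · obtain ⟨s, hs, e, he⟩ := big_int hgen hN htr hP0 (A := lam) ⟨ε, hε, hsemi⟩ hbig κ
        have h1 : (fun i => lam i + T * κ i + s * κ i) = fun i => lam i + (T + s) * κ i := by
          funext i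
          ring
        rw [h1] at he
        have h2 := hTmax (T + s) ⟨by linarith [hT.1], e, he.1,
          fun b hb => absurd (Finset.mem_univ b) hb, he.2⟩
        linarith
    · left
      push Not at hub
      have hall : ∀ t, 0 ≤ t → FeB g lam κ Finset.univ t := by
        intro t ht
        obtain ⟨t', ht', hlt⟩ := hub t
        exact feb_conv hf0 ht' ht hlt.le
      have hopt' : ∀ P, Divisorial N P → Opt g (og f P) κ (-(lv (d L P) κ)) := fun P hP =>
        opt_dir fun t ht => hX.segL t ht (hall t ((hτm L le_rfl).1.trans ht)) P hP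
      refine ⟨fun t ht => semN_of_loc hgen hP0 (hX.innerL t ht ⟨t + 1, by linarith,
        hall _ (by linarith [(hτm L le_rfl).1])⟩), ?_⟩
      simp only [hκd]
      obtain ⟨e, he, -⟩ := (hopt' P0 hP0).2
      exact semp_of_opt hgen ⟨e, he⟩ hopt'

end Pool.Agent.Helper15K1.MM
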