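import Pool.Agent.Helper15K1.MM.Ext

/-!
The program by extremal steps along a general half-line.
-/

set_option autoImplicit false

namespace Pool.Agent.Helper15K1.MM

open Pool.Agent.Q57.HK

variable {p N0 : ℕ} {g : Fin N0 → Fin p → ℤ} {lam κ : Fin p → ℚ} {Q : Type}
  {Dv : Q → Prop} {o : Q → Fin N0 → ℚ}

theorem lv_sub_smul (d μ v : Fin p → ℚ) (η : ℚ) :
    lv d (fun i => μ i + η * v i) = lv d μ + η * lv d v := by
  unfold lv
  rw [Finset.mul_sum, ← Finset.sum_add_distrib]
  exact Finset.sum_congr rfl fun i _ => by ring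

/-- comparison of the linear forms in a direction -/
theorem lv_eq {t : ℚ} {S S' : (Fin p → ℚ) → Prop} {d d' : Q → Fin p → ℚ}
    (h : LocA g lam κ Dv o t S d) (h' : LocA g lam κ Dv o t S' d') {v : Fin p → ℚ}
    (hS : ∀ η : ℚ, 0 ≤ η → S fun i => mu lam κ t i + η * v i)
    (hS' : ∀ η : ℚ, 0 ≤ η → S' fun i => mu lam κ t i + η * v i) {P : Q} (hP : Dv P) :
    lv (d P) v = lv (d' P) v := by
  obtain ⟨ε, hε, h1⟩ := h
  obtain ⟨ε', hε', h1'⟩ := h'
  obtain ⟨C, hC0, hC⟩ : ∃ C : ℚ, 0 < C ∧ ∀ i, |v i| ≤ C := by
    refine ⟨∑ i, |v i| + 1, by positivity, fun i => ?_⟩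
    have := Finset.single_le_sum (f := fun i => |v i|) (fun i _ => abs_nonneg _)
      (Finset.mem_univ i)
    linarith
  obtain ⟨η, hη⟩ : ∃ η, η = min ε ε' / C := ⟨_, rfl⟩
  have hm : 0 < min ε ε' := lt_min hε hε'
  have hη0 : 0 < η := by
    rw [hη]
    exact div_pos hm hC0
  have hnr : Nr (min ε ε') (mu lam κ t) fun i => mu lam κ t i + η * v i := by
    intro i
    beta_reduce
    rw [add_sub_cancel_left, abs_mul, abs_of_pos hη0]
    calc η * |v i| ≤ η * C := mul_le_mul_of_nonneg_left (hC i) hη0.le
      _ = min ε ε' := by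
        rw [hη]
        field_simp
  have h0 : (fun i => mu lam κ t i + 0 * v i) = mu lam κ t := by
    funext i
    simp
  have e1 := opt_unique (h1 _ (hnr.mono (min_le_left _ _)) (hS η hη0.le) P hP)
    (h1' _ (hnr.mono (min_le_right _ _)) (hS' η hη0.le) P hP)
  have e2 := opt_unique
    (h1 _ (nr_self hε.le _) (by have := hS 0 le_rfl; rwa [h0] at this) P hP)
    (h1' _ (nr_self hε'.le _) (by have := hS' 0 le_rfl; rwa [h0] at this) P hP)
  rw [lv_sub_smul (d P) (mu lam κ t) v η, lv_sub_smul (d' P) (mu lam κ t) v η] at e1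
  have e3 : η * lv (d P) v = η * lv (d' P) v := by linarith
  exact mul_left_cancel₀ hη0.ne' e3

theorem lv_single (d : Fin p → ℚ) (i : Fin p) : lv d (Pi.single i 1) = d i := by
  classical
  unfold lv
  rw [Finset.sum_eq_single i]
  · simp
  · intro j _ hj
    rw [Pi.single_eq_of_ne hj, mul_zero]
  · intro h
    exact absurd (Finset.mem_univ i) h

theorem eq_full {t : ℚ} {d d' : Q → Fin p → ℚ}
    (h : LocA g lam κ Dv o t (fun _ => True) d) (h' : LocA g lam κ Dv o t (fun _ => True) d')
    {P : Q} (hP : Dv P) : d P = d' P := by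
  funext i
  have h1 := lv_eq h h' (v := Pi.single i 1) (fun _ _ => trivial) (fun _ _ => trivial) hP
  rwa [lv_single, lv_single] at h1

theorem eq_wall {t : ℚ} {l : Fin p → ℚ} (hl : Wl g lam κ t l) {d d' : Q → Fin p → ℚ}
    (h : LocA g lam κ Dv o t (fun μ => 0 ≤ lv l μ) d)
    (h' : LocA g lam κ Dv o t (fun μ => lv l μ ≤ 0) d')
    {P : Q} (hP : Dv P) (hκ : lv (d P) κ = lv (d' P) κ) : d P = d' P := by
  funext i
  have h0 := wl_zero hl
  have hz : lv l (fun j => (Pi.single i 1 : Fin p → ℚ) j + l i * κ j) = 0 := by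
    rw [lv_sub_smul, lv_single, hl.2.1]
    ring
  have hS : ∀ η : ℚ, lv l (fun j => mu lam κ t j +
      η * ((Pi.single i 1 : Fin p → ℚ) j + l i * κ j)) = 0 := by
    intro η
    rw [lv_sub_smul, h0, hz]
    ring
  have h1 := lv_eq h h' (v := fun j => (Pi.single i 1 : Fin p → ℚ) j + l i * κ j)
    (fun η _ => (hS η).ge) (fun η _ => (hS η).le) hP
  rw [lv_sub_smul, lv_sub_smul, lv_single, lv_single, hκ] at h1
  linarith

/-- the linear forms matter only on `Dv` -/
theorem LocA.congr {t : ℚ} {S : (Fin p → ℚ) → Prop} {d d' : Q → Fin p → ℚ}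
    (h : LocA g lam κ Dv o t S d) (hd : ∀ P, Dv P → d P = d' P) : LocA g lam κ Dv o t S d' := by
  obtain ⟨ε, hε, h1⟩ := h
  exact ⟨ε, hε, fun μ hμ hS P hP => by rw [← hd P hP]; exact h1 μ hμ hS P hP⟩

theorem LocA.union {t : ℚ} {l : Fin p → ℚ} {d : Q → Fin p → ℚ}
    (h : LocA g lam κ Dv o t (fun μ => 0 ≤ lv l μ) d)
    (h' : LocA g lam κ Dv o t (fun μ => lv l μ ≤ 0) d) :
    LocA g lam κ Dv o t (fun _ => True) d := by
  obtain ⟨ε, hε, h1⟩ := h
  obtain ⟨ε', hε', h1'⟩ := h'
  refine ⟨min ε ε', lt_min hε hε', fun μ hμ _ P hP => ?_⟩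
  rcases le_total 0 (lv l μ) with h2 | h2
  · exact h1 μ (hμ.mono (min_le_left _ _)) h2 P hP
  · exact h1' μ (hμ.mono (min_le_right _ _)) h2 P hP

/-- the values on a segment -/
def SegV (g : Fin N0 → Fin p → ℤ) (lam κ : Fin p → ℚ) (Dv : Q → Prop) (o : Q → Fin N0 → ℚ)
    (t : ℚ) (d : Q → Fin p → ℚ) : Prop :=
  ∀ P, Dv P → Opt g (o P) (mu lam κ t) (-(lv (d P) lam + t * lv (d P) κ))

theorem SegV.congr {t : ℚ} {d d' : Q → Fin p → ℚ} (h : SegV g lam κ Dv o t d)
    (hd : ∀ P, Dv P → d P = d' P) : SegV g lam κ Dv o t d' := fun P hP => by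
  rw [← hd P hP]
  exact h P hP

/-- the program by extremal steps which starts at the time `s` -/
structure PrgX (g : Fin N0 → Fin p → ℤ) (lam κ : Fin p → ℚ) (Dv : Q → Prop) (o : Q → Fin N0 → ℚ)
    (s : ℚ) (L : ℕ) (τ : ℕ → ℚ) (d : ℕ → Q → Fin p → ℚ) (l : ℕ → Fin p → ℚ) : Prop where
  start : τ 0 = s
  mono : ∀ j < L, τ j < τ (j + 1)
  inner : ∀ j < L, ∀ t, τ j < t → t < τ (j + 1) → LocA g lam κ Dv o t (fun _ => True) (d j)
  seg : ∀ j < L, ∀ t, τ j ≤ t → t ≤ τ (j + 1) → SegV g lam κ Dv o t (d j)
  wall : ∀ j < L, Wl g lam κ (τ (j + 1)) (l j)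
  left : ∀ j < L, LocA g lam κ Dv o (τ (j + 1)) (fun μ => 0 ≤ lv (l j) μ) (d j)
  right : ∀ j < L, LocA g lam κ Dv o (τ (j + 1)) (fun μ => lv (l j) μ ≤ 0) (d (j + 1))
  neg : ∀ j < L, (∀ P, Dv P → lv (d (j + 1) P) κ ≤ lv (d j P) κ) ∧
    ∃ P, Dv P ∧ lv (d (j + 1) P) κ < lv (d j P) κ
  last : ∃ t, τ L < t ∧ FeB g lam κ Finset.univ t
  innerL : ∀ t, τ L < t → (∃ t', t < t' ∧ FeB g lam κ Finset.univ t') →
    LocA g lam κ Dv o t (fun _ => True) (d L)
  segL : ∀ t, τ L ≤ t → FeB g lam κ Finset.univ t → SegV g lam κ Dv o t (d L)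
  leftL : ∀ T, τ L < T → FeB g lam κ Finset.univ T → (∀ t, FeB g lam κ Finset.univ t → t ≤ T) →
    (∀ l, Wl g lam κ T l → LocA g lam κ Dv o T (fun μ => 0 ≤ lv l μ) (d L)) ∧
    (NoWl g lam κ T → LocA g lam κ Dv o T (fun _ => True) (d L))
  right0 : (∀ l, Wl g lam κ s l → LocA g lam κ Dv o s (fun μ => lv l μ ≤ 0) (d 0)) ∧
    (NoWl g lam κ s → LocA g lam κ Dv o s (fun _ => True) (d 0))

/-- **The program by extremal steps exists.** -/
theorem exists_prgX (hG : Gen g κ lam)
    (hbd : ∀ P, Dv P → ∀ μ, ∃ v0 : ℚ, ∀ e, Rp g e μ → v0 ≤ ∑ b, e b * o P b) {s : ℚ}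
    (hs : FeB g lam κ Finset.univ s) (ht : ∃ t, s < t ∧ FeB g lam κ Finset.univ t) :
    ∃ (L : ℕ) (τ : ℕ → ℚ) (d : ℕ → Q → Fin p → ℚ) (l : ℕ → Fin p → ℚ),
      PrgX g lam κ Dv o s L τ d l := by
  classical
  obtain ⟨n, hn⟩ : ∃ n, n = ((bk_fin (g := g) (lam := lam) (κ := κ)).toFinset.filter
    fun a => s < a ∧ ∃ t, a < t ∧ FeB g lam κ Finset.univ t).card := ⟨_, rfl⟩
  induction n using Nat.strong_induction_on generalizing s with
  | _ n ih =>
    obtain ⟨F, hF⟩ : ∃ F, F = ((bk_fin (g := g) (lam := lam) (κ := κ)).toFinset.filter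
      fun a => s < a ∧ ∃ t, a < t ∧ FeB g lam κ Finset.univ t) := ⟨_, rfl⟩
    have hmem : ∀ a, a ∈ F ↔ a ∈ Bk g lam κ ∧ s < a ∧ ∃ t, a < t ∧ FeB g lam κ Finset.univ t := by
      intro a
      rw [hF, Finset.mem_filter, Set.Finite.mem_toFinset]
    obtain ⟨t0, hst0, ht0⟩ := ht
    rcases F.eq_empty_or_nonempty with hE | hne
    · -- no more breakpoints
      have hno : ∀ a ∈ Bk g lam κ, s < a → ∀ t, a < t → ¬ FeB g lam κ Finset.univ t := by
        intro a ha hsa t hat hft
        have : a ∈ F := (hmem a).2 ⟨ha, hsa, t, hat, hft⟩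
        rw [hE] at this
        simp at this
      obtain ⟨s', hs'⟩ : ∃ s', s' = (s + t0) / 2 := ⟨_, rfl⟩
      have hmid : FeB g lam κ Finset.univ s' := by
        rw [hs']
        exact feb_conv hs ht0 (by linarith) (by linarith)
      have hss' : s < s' := by rw [hs']; linarith
      have hs't0 : s' < t0 := by rw [hs']; linarith
      obtain ⟨d, hd⟩ := exists_chm (J := {t | s ≤ t ∧ FeB g lam κ Finset.univ t}) (s := s)
        (s' := s') hG hbd ⟨le_rfl, hs⟩ hss' (fun t ht => ht.1)
        (fun a ha hsa => by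
          by_contra hcon
          push Not at hcon
          exact hno a ha hsa t0 (by linarith) ht0)
        (fun a ha hsa t ht => by
          by_contra hcon
          push Not at hcon
          exact hno a ha (by linarith) t hcon ht.2) hmid
      refine ⟨0, fun _ => s, fun _ => d, fun _ => 0, rfl, fun j hj => absurd hj (Nat.not_lt_zero j),
        fun j hj => absurd hj (Nat.not_lt_zero j), fun j hj => absurd hj (Nat.not_lt_zero j),
        fun j hj => absurd hj (Nat.not_lt_zero j), fun j hj => absurd hj (Nat.not_lt_zero j),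
        fun j hj => absurd hj (Nat.not_lt_zero j), fun j hj => absurd hj (Nat.not_lt_zero j),
        ⟨t0, hst0, ht0⟩, fun t ht ht' => hd.inner ?_, fun t ht ht' P hP => hd.seg ⟨ht, ht'⟩ hP,
        fun T hT hfT hmax => hd.left ⟨hT.le, hfT⟩ (lt_of_lt_of_le hs't0 (hmax t0 ht0)),
        hd.right ⟨le_rfl, hs⟩ hss'⟩
      obtain ⟨t', htt', hft'⟩ := ht'
      rcases lt_trichotomy t s' with h | h | h
      · exact Or.inr ⟨s, ⟨le_rfl, hs⟩, Or.inr ⟨ht, h⟩⟩
      · exact Or.inl h
      · exact Or.inr ⟨t', ⟨by linarith, hft'⟩, Or.inl ⟨h, htt'⟩⟩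
    · obtain ⟨s1, hs1⟩ : ∃ s1, s1 = F.min' hne := ⟨_, rfl⟩
      have hs1F : s1 ∈ F := by
        rw [hs1]
        exact F.min'_mem hne
      have hs1min : ∀ a ∈ F, s1 ≤ a := fun a ha => by
        rw [hs1]
        exact F.min'_le a ha
      obtain ⟨hs1B, hss1, t1, hs1t1, ht1⟩ := (hmem s1).1 hs1F
      have hfs1 : FeB g lam κ Finset.univ s1 := feb_conv hs ht1 hss1.le hs1t1.le
      obtain ⟨L, τ, d, l, hX⟩ := ih _ (by
        rw [hn, ← hF]
        refine Finset.card_lt_card ⟨fun a ha => ?_, fun h => ?_⟩
        · rw [Finset.mem_filter, Set.Finite.mem_toFinset] at ha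
          exact (hmem a).2 ⟨ha.1, hss1.trans ha.2.1, ha.2.2⟩
        · have h1 := h hs1F
          rw [Finset.mem_filter] at h1
          exact lt_irrefl _ h1.2.1) hfs1 ⟨t1, hs1t1, ht1⟩ rfl
      obtain ⟨s', hs'⟩ : ∃ s', s' = (s + s1) / 2 := ⟨_, rfl⟩
      have hmid : FeB g lam κ Finset.univ s' := by
        rw [hs']
        exact feb_conv hs hfs1 (by linarith) (by linarith)
      have hss' : s < s' := by rw [hs']; linarith
      have hs's1 : s' < s1 := by rw [hs']; linarith
      obtain ⟨d0, hd⟩ := exists_chm (J := Set.Icc s s1) (s := s) (s' := s') hG hbd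
        ⟨le_rfl, hss1.le⟩ hss' (fun t ht => ht.1)
        (fun a ha hsa => by
          by_contra hcon
          push Not at hcon
          have := hs1min a ((hmem a).2 ⟨ha, hsa, t1, by linarith, ht1⟩)
          linarith)
        (fun a ha hsa t ht => by
          by_contra hcon
          push Not at hcon
          have h2 := ht.2
          have := hs1min a ((hmem a).2 ⟨ha, by linarith, t1, by linarith, ht1⟩)
          linarith) hmid
      have hinner : ∀ t, s < t → t < s1 → LocA g lam κ Dv o t (fun _ => True) d0 := by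
        intro t h1 h2
        refine hd.inner ?_
        rcases lt_trichotomy t s' with h | h | h
        · exact Or.inr ⟨s, ⟨le_rfl, hss1.le⟩, Or.inr ⟨h1, h⟩⟩
        · exact Or.inl h
        · exact Or.inr ⟨s1, ⟨hss1.le, le_rfl⟩, Or.inl ⟨h, h2⟩⟩
      have hseg : ∀ t, s ≤ t → t ≤ s1 → SegV g lam κ Dv o t d0 := fun t h1 h2 P hP =>
        hd.seg ⟨h1, h2⟩ hP
      have hleft := hd.left (s := s1) ⟨hss1.le, le_rfl⟩ hs's1
      have hright := hd.right (s := s) ⟨le_rfl, hss1.le⟩ hss'
      -- the data on the next interval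
      obtain ⟨s3, hs13, h3, h3'⟩ : ∃ s3, s1 < s3 ∧ SegV g lam κ Dv o s1 (d 0) ∧
          SegV g lam κ Dv o s3 (d 0) := by
        rcases Nat.eq_zero_or_pos L with hL | hL
        · subst hL
          obtain ⟨t2, ht2, hft2⟩ := hX.last
          rw [hX.start] at ht2
          exact ⟨t2, ht2, hX.segL s1 hX.start.le hfs1,
            hX.segL t2 (by rw [hX.start]; exact ht2.le) hft2⟩
        · have h1 := hX.mono 0 hL
          rw [hX.start, zero_add] at h1
          exact ⟨τ 1, h1, hX.seg 0 hL s1 hX.start.le (by rw [zero_add]; exact h1.le),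
            hX.seg 0 hL (τ 1) (by rw [hX.start]; exact h1.le) le_rfl⟩
      have hsl : ∀ P, Dv P → lv (d 0 P) κ ≤ lv (d0 P) κ := fun P hP =>
        (slope_le hss1 hs13 (hseg s le_rfl hss1.le P hP) (hseg s1 hss1.le le_rfl P hP)
          (h3 P hP) (h3' P hP)).1
      by_cases hall : ∀ P, Dv P → lv (d0 P) κ = lv (d 0 P) κ
      · -- extend the first interval
        obtain ⟨heq, hmidA⟩ : (∀ P, Dv P → d0 P = d 0 P) ∧
            LocA g lam κ Dv o s1 (fun _ => True) (d 0) := by
          by_cases hno : NoWl g lam κ s1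
          · have h4 := hX.right0.2 hno
            exact ⟨fun P hP => eq_full (hleft.2 hno) h4 hP, h4⟩
          · obtain ⟨l1, hl1⟩ := exists_wl hG hno
            have h4 : ∀ P, Dv P → d0 P = d 0 P := fun P hP =>
              eq_wall hl1 (hleft.1 l1 hl1) (hX.right0.1 l1 hl1) hP (hall P hP)
            exact ⟨h4, ((hleft.1 l1 hl1).congr h4).union (hX.right0.1 l1 hl1)⟩
        have hinner' : ∀ t, s < t → t ≤ s1 → LocA g lam κ Dv o t (fun _ => True) (d 0) := by
          intro t h1 h2
          rcases lt_or_eq_of_le h2 with h4 | h4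
          · exact (hinner t h1 h4).congr heq
          · rw [h4]
            exact hmidA
        refine ⟨L, fun j => if j = 0 then s else τ j, d, l, if_pos rfl, fun j hj => ?_,
          fun j hj t h1 h2 => ?_, fun j hj t h1 h2 => ?_, fun j hj => ?_, fun j hj => ?_,
          fun j hj => ?_, hX.neg, ?_, fun t h1 h2 => ?_, fun t h1 h2 => ?_, fun T h1 h2 h4 => ?_,
          ⟨fun l hl => (hright.1 l hl).congr heq, fun hno => (hright.2 hno).congr heq⟩⟩
        · rcases Nat.eq_zero_or_pos j with h0 | h0
          · subst h0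
            have h1 := hX.mono 0 hj
            rw [hX.start] at h1
            simp only [if_true, zero_add, one_ne_zero, if_false] at h1 ⊢
            linarith
          · have h6 : j ≠ 0 := by omega
            simp only [h6, Nat.add_eq_zero_iff, one_ne_zero, and_false, if_false]
            exact hX.mono j hj
        · rcases Nat.eq_zero_or_pos j with h0 | h0
          · subst h0
            simp only [if_true, zero_add, one_ne_zero, if_false] at h1 h2
            rcases le_or_gt t s1 with h4 | h4
            · exact hinner' t h1 h4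
            · exact hX.inner 0 hj t (by rw [hX.start]; exact h4) (by rw [zero_add]; exact h2)
          · have h6 : j ≠ 0 := by omega
            simp only [h6, Nat.add_eq_zero_iff, one_ne_zero, and_false, if_false] at h1 h2
            exact hX.inner j hj t h1 h2
        · rcases Nat.eq_zero_or_pos j with h0 | h0
          · subst h0
            simp only [if_true, zero_add, one_ne_zero, if_false] at h1 h2
            rcases le_total t s1 with h4 | h4
            · exact (hseg t h1 h4).congr heq
            · exact hX.seg 0 hj t (by rw [hX.start]; exact h4) (by rw [zero_add]; exact h2)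
          · have h6 : j ≠ 0 := by omega
            simp only [h6, Nat.add_eq_zero_iff, one_ne_zero, and_false, if_false] at h1 h2
            exact hX.seg j hj t h1 h2
        · simp only [Nat.add_eq_zero_iff, one_ne_zero, and_false, if_false]
          exact hX.wall j hj
        · simp only [Nat.add_eq_zero_iff, one_ne_zero, and_false, if_false]
          exact hX.left j hj
        · simp only [Nat.add_eq_zero_iff, one_ne_zero, and_false, if_false]
          exact hX.right j hj
        · rcases Nat.eq_zero_or_pos L with hL | hL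
          · simp only [hL, if_true]
            exact ⟨t0, hst0, ht0⟩
          · have h6 : L ≠ 0 := by omega
            simp only [h6, if_false]
            exact hX.last
        · rcases Nat.eq_zero_or_pos L with hL | hL
          · simp only [hL, if_true] at h1
            rcases le_or_gt t s1 with h4 | h4
            · rw [hL]
              exact hinner' t h1 h4
            · exact hX.innerL t (by rw [hL, hX.start]; exact h4) h2
          · have h6 : L ≠ 0 := by omega
            simp only [h6, if_false] at h1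
            exact hX.innerL t h1 h2
        · rcases Nat.eq_zero_or_pos L with hL | hL
          · simp only [hL, if_true] at h1
            rcases le_total t s1 with h4 | h4
            · rw [hL]
              exact (hseg t h1 h4).congr heq
            · exact hX.segL t (by rw [hL, hX.start]; exact h4) h2
          · have h6 : L ≠ 0 := by omega
            simp only [h6, if_false] at h1
            exact hX.segL t h1 h2
        · rcases Nat.eq_zero_or_pos L with hL | hL
          · exact hX.leftL T (by rw [hL, hX.start]; exact lt_of_lt_of_le hs1t1 (h4 t1 ht1)) h2 h4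
          · have h6 : L ≠ 0 := by omega
            simp only [h6, if_false] at h1
            exact hX.leftL T h1 h2 h4
      · -- a new step
        push Not at hall
        obtain ⟨P0, hP0, hne0⟩ := hall
        have hnw : ¬ NoWl g lam κ s1 := by
          intro hno
          apply hne0
          rw [eq_full (hleft.2 hno) (hX.right0.2 hno) hP0]
        obtain ⟨l1, hl1⟩ := exists_wl hG hnw
        refine ⟨L + 1, fun j => if j = 0 then s else τ (j - 1), fun j => if j = 0 then d0 else
          d (j - 1), fun j => if j = 0 then l1 else l (j - 1), if_pos rfl, fun j hj => ?_,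
          fun j hj t h1 h2 => ?_, fun j hj t h1 h2 => ?_, fun j hj => ?_, fun j hj => ?_,
          fun j hj => ?_, fun j hj => ?_, ?_, fun t h1 h2 => ?_, fun t h1 h2 => ?_,
          fun T h1 h2 h4 => ?_, ?_⟩
        · rcases Nat.eq_zero_or_pos j with h0 | h0
          · subst h0
            simp only [if_true, zero_add, one_ne_zero, if_false, Nat.sub_self, hX.start]
            exact hss1
          · obtain ⟨j', rfl⟩ : ∃ j', j = j' + 1 := ⟨j - 1, by omega⟩
            simp only [Nat.add_eq_zero_iff, one_ne_zero, and_false, if_false, Nat.add_sub_cancel]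
            exact hX.mono j' (by omega)
        · rcases Nat.eq_zero_or_pos j with h0 | h0
          · subst h0
            simp only [if_true, zero_add, one_ne_zero, if_false, Nat.sub_self, hX.start]
              at h1 h2 ⊢
            exact hinner t h1 h2
          · obtain ⟨j', rfl⟩ : ∃ j', j = j' + 1 := ⟨j - 1, by omega⟩
            simp only [Nat.add_eq_zero_iff, one_ne_zero, and_false, if_false, Nat.add_sub_cancel]
              at h1 h2 ⊢
            exact hX.inner j' (by omega) t h1 h2
        · rcases Nat.eq_zero_or_pos j with h0 | h0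
          · subst h0
            simp only [if_true, zero_add, one_ne_zero, if_false, Nat.sub_self, hX.start]
              at h1 h2 ⊢
            exact hseg t h1 h2
          · obtain ⟨j', rfl⟩ : ∃ j', j = j' + 1 := ⟨j - 1, by omega⟩
            simp only [Nat.add_eq_zero_iff, one_ne_zero, and_false, if_false, Nat.add_sub_cancel]
              at h1 h2 ⊢
            exact hX.seg j' (by omega) t h1 h2
        · rcases Nat.eq_zero_or_pos j with h0 | h0
          · subst h0
            simp only [if_true, zero_add, one_ne_zero, if_false, Nat.sub_self, hX.start]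
            exact hl1
          · obtain ⟨j', rfl⟩ : ∃ j', j = j' + 1 := ⟨j - 1, by omega⟩
            simp only [Nat.add_eq_zero_iff, one_ne_zero, and_false, if_false, Nat.add_sub_cancel]
            exact hX.wall j' (by omega)
        · rcases Nat.eq_zero_or_pos j with h0 | h0
          · subst h0
            simp only [if_true, zero_add, one_ne_zero, if_false, Nat.sub_self, hX.start]
            exact hleft.1 l1 hl1
          · obtain ⟨j', rfl⟩ : ∃ j', j = j' + 1 := ⟨j - 1, by omega⟩
            simp only [Nat.add_eq_zero_iff, one_ne_zero, and_false, if_false, Nat.add_sub_cancel]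
            exact hX.left j' (by omega)
        · rcases Nat.eq_zero_or_pos j with h0 | h0
          · subst h0
            simp only [if_true, zero_add, one_ne_zero, if_false, Nat.sub_self, hX.start]
            exact hX.right0.1 l1 hl1
          · obtain ⟨j', rfl⟩ : ∃ j', j = j' + 1 := ⟨j - 1, by omega⟩
            simp only [Nat.add_eq_zero_iff, one_ne_zero, and_false, if_false, Nat.add_sub_cancel]
            exact hX.right j' (by omega)
        · rcases Nat.eq_zero_or_pos j with h0 | h0
          · subst h0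
            simp only [if_true, zero_add, one_ne_zero, if_false, Nat.sub_self]
            exact ⟨hsl, P0, hP0, lt_of_le_of_ne (hsl P0 hP0) (Ne.symm hne0)⟩
          · obtain ⟨j', rfl⟩ : ∃ j', j = j' + 1 := ⟨j - 1, by omega⟩
            simp only [Nat.add_eq_zero_iff, one_ne_zero, and_false, if_false, Nat.add_sub_cancel]
            exact hX.neg j' (by omega)
        · simp only [Nat.add_eq_zero_iff, one_ne_zero, and_false, if_false, Nat.add_sub_cancel]
          exact hX.last
        · simp only [Nat.add_eq_zero_iff, one_ne_zero, and_false, if_false, Nat.add_sub_cancel]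
            at h1 ⊢
          exact hX.innerL t h1 h2
        · simp only [Nat.add_eq_zero_iff, one_ne_zero, and_false, if_false, Nat.add_sub_cancel]
            at h1 ⊢
          exact hX.segL t h1 h2
        · simp only [Nat.add_eq_zero_iff, one_ne_zero, and_false, if_false, Nat.add_sub_cancel]
            at h1 ⊢
          exact hX.leftL T h1 h2 h4
        · simp only [if_true]
          exact hright

end Pool.Agent.Helper15K1.MM
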