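import Pool.Agent.Helper15K1.MM.Sem

/-!
Kodaira's lemma for combinations of divisors.
-/

set_option autoImplicit false
set_option linter.overlappingInstances false
set_option linter.unusedSectionVars false
set_option maxHeartbeats 1000000

open FF MvPolynomial Pool.Agent.W603.LV Pool.Agent.W602.GT Pool.Agent.W602.Cov
open Pool.Agent.Q57.FT Pool.Agent.Q57.CX Pool.Agent.Q57.HK

namespace Pool.Agent.Helper15K1.MM

section poles

variable {k K : Type} [Field k] [Field K] [Algebra k K]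

/-- the poles of polynomials in `f` are bounded by those of the `f i` -/
theorem ge_adj {w : ℕ} {f : Fin w → K} {x : K}
    (hx : x ∈ Algebra.adjoin k (Set.range f)) :
    ∃ E : ℕ, ∀ (P : Place k K) (μ : ℤ), μ ≤ 0 → (∀ i, Ge P μ (f i)) → Ge P (E * μ) x := by
  induction hx using Algebra.adjoin_induction with
  | mem x hx =>
    obtain ⟨i, rfl⟩ := hx
    exact ⟨1, fun P μ _ h => by simpa using h i⟩
  | algebraMap r => exact ⟨0, fun P μ _ _ => by simpa using Ge.const (P := P) r⟩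
  | add x y _ _ hx hy =>
    obtain ⟨E1, h1⟩ := hx
    obtain ⟨E2, h2⟩ := hy
    refine ⟨E1 + E2, fun P μ hμ h => ((h1 P μ hμ h).mono ?_).add ((h2 P μ hμ h).mono ?_)⟩
    · push_cast
      nlinarith [mul_nonneg (Int.natCast_nonneg E2) (neg_nonneg.2 hμ)]
    · push_cast
      nlinarith [mul_nonneg (Int.natCast_nonneg E1) (neg_nonneg.2 hμ)]
  | mul x y _ _ hx hy =>
    obtain ⟨E1, h1⟩ := hx
    obtain ⟨E2, h2⟩ := hy
    refine ⟨E1 + E2, fun P μ hμ h => ?_⟩
    have h3 := (h1 P μ hμ h).mul (h2 P μ hμ h)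
    rwa [← add_mul, ← Nat.cast_add] at h3

theorem ge_int {w : ℕ} {f : Fin w → K} {x : K}
    (hx : IsIntegral (Algebra.adjoin k (Set.range f)) x) :
    ∃ E : ℕ, ∀ (P : Place k K) (μ : ℤ), μ ≤ 0 → (∀ i, Ge P μ (f i)) → Ge P (E * μ) x := by
  obtain ⟨p, hp, hpx⟩ := hx
  choose E hE using fun i : ℕ => ge_adj (k := k) (f := f) (x := (p.coeff i : K)) (p.coeff i).2
  refine ⟨∑ i ∈ Finset.range p.natDegree, E i, fun P μ hμ h => ?_⟩
  set T : ℕ := ∑ i ∈ Finset.range p.natDegree, E i with hT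
  by_contra hcon
  unfold Ge at hcon
  push Not at hcon
  obtain ⟨hx0, hlt⟩ := hcon
  have hTμ : (T : ℤ) * μ ≤ 0 := mul_nonpos_of_nonneg_of_nonpos (Int.natCast_nonneg _) hμ
  have hneg : P.ord x < 0 := lt_of_lt_of_le hlt hTμ
  rw [Polynomial.eval₂_eq_sum_range, Finset.sum_range_succ, hp.coeff_natDegree, map_one,
    one_mul] at hpx
  have h1 : Ge P (p.natDegree * P.ord x + 1) (∑ i ∈ Finset.range p.natDegree,
      algebraMap (Algebra.adjoin k (Set.range f)) K (p.coeff i) * x ^ i) := by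
    refine Ge.sum _ _ fun i hi => ?_
    have h2 : Ge P (T * μ) (algebraMap (Algebra.adjoin k (Set.range f)) K (p.coeff i)) := by
      refine (hE i P μ hμ h).mono ?_
      have h3 : E i ≤ T := Finset.single_le_sum (f := E) (fun _ _ => Nat.zero_le _) hi
      have h4 : (E i : ℤ) ≤ T := by exact_mod_cast h3
      nlinarith
    have h3 : Ge P (i * P.ord x) (x ^ i) := (show Ge P (P.ord x) x from Or.inr le_rfl).pow i
    refine (h2.mul h3).mono ?_
    have h4 : (i : ℤ) + 1 ≤ p.natDegree := by exact_mod_cast Finset.mem_range.1 hi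
    nlinarith
  have h2 : x ^ p.natDegree = -∑ i ∈ Finset.range p.natDegree,
      algebraMap (Algebra.adjoin k (Set.range f)) K (p.coeff i) * x ^ i := by
    linear_combination hpx
  have h3 := h1.neg
  rw [← h2] at h3
  rcases h3 with h3 | h3
  · exact pow_ne_zero _ hx0 h3
  · rw [P.ord_pow] at h3
    omega

end poles

variable {p N : ℕ} {K : Type} [Field K] [Algebra ℂ K]

/-- all the combinations near `A` are semiample -/
def Amp (N : ℕ) (δ : Fin p → Place ℂ K → ℚ) (A : Fin p → ℚ) : Prop :=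
  ∃ ε : ℚ, 0 < ε ∧ ∀ μ : Fin p → ℚ, (∀ i, |μ i - A i| ≤ ε) → SemiA N δ μ

/-- the ratios of the sections of the multiples of `μ` contain `N` algebraically independent
functions -/
def BigC (N : ℕ) (δ : Fin p → Place ℂ K → ℚ) (μ : Fin p → ℚ) : Prop :=
  ∃ y : Fin N → K, AlgebraicIndependent ℂ y ∧ ∀ i, ∃ (m : ℕ) (ν : Fin p → ℤ), 1 ≤ m ∧
    (∀ i', (m : ℚ) * μ i' = ν i') ∧ ∃ u v : K, v ≠ 0 ∧ ZSec N δ ν u ∧ ZSec N δ ν v ∧ y i = u / v

theorem zsec_prod1 {n : ℕ} {δ : Fin p → Place ℂ K → ℚ} {g : Fin n → Fin p → ℤ}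
    {f : Fin n → K} (h : ∀ b, ZSec N δ (g b) (f b)) : ZSec N δ (∑ b, g b) (∏ b, f b) := by
  simpa using zsec_prod h fun _ => 1

/-- a common denominator of the ratios -/
theorem big_common (hN : 1 ≤ N) {δ : Fin p → Place ℂ K → ℚ} {μ : Fin p → ℚ} (h : BigC N δ μ) :
    ∃ (m : ℕ) (ν : Fin p → ℤ), 1 ≤ m ∧ (∀ i, (m : ℚ) * μ i = ν i) ∧
      ∃ (G : K) (S : Fin N → K), G ≠ 0 ∧ ZSec N δ ν G ∧ (∀ i, ZSec N δ ν (S i)) ∧
        AlgebraicIndependent ℂ fun i => S i / G := by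
  classical
  obtain ⟨y, hy, h⟩ := h
  choose m ν hm hν u v hv hu hvs hyi using h
  have hm0 : 1 ≤ ∑ j, m j := (hm ⟨0, hN⟩).trans
    (Finset.single_le_sum (f := m) (fun _ _ => Nat.zero_le _) (Finset.mem_univ _))
  refine ⟨∑ j, m j, ∑ j, ν j, hm0, fun i => ?_, ∏ j, v j,
    fun i => ∏ j, Function.update v i (u i) j, Finset.prod_ne_zero_iff.2 fun j _ => hv j,
    zsec_prod1 hvs, fun i => zsec_prod1 fun j => ?_, ?_⟩
  · rw [Finset.sum_apply]
    push_cast
    rw [Finset.sum_mul]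
    exact Finset.sum_congr rfl fun j _ => hν j i
  · by_cases hj : j = i
    · subst hj
      rw [Function.update_self]
      exact hu j
    · rw [Function.update_of_ne hj]
      exact hvs j
  · have h1 : (fun i => (∏ j, Function.update v i (u i) j) / ∏ j, v j) = y := by
      funext i
      rw [hyi i, ← Finset.mul_prod_erase Finset.univ _ (Finset.mem_univ i),
        ← Finset.mul_prod_erase Finset.univ v (Finset.mem_univ i), Function.update_self]
      have h2 : ∏ j ∈ Finset.univ.erase i, Function.update v i (u i) j =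
          ∏ j ∈ Finset.univ.erase i, v j :=
        Finset.prod_congr rfl fun j hj => Function.update_of_ne (Finset.ne_of_mem_erase hj) _ _
      rw [h2]
      have h3 : ∏ j ∈ Finset.univ.erase i, v j ≠ 0 :=
        Finset.prod_ne_zero_iff.2 fun j _ => hv j
      rw [mul_div_mul_right _ _ h3]
    rw [h1]
    exact hy

/-- **Kodaira's lemma.** -/
theorem kod (hN : 1 ≤ N) (htr : Algebra.trdeg ℂ K = N) {δ : Fin p → Place ℂ K → ℚ}
    {μ : Fin p → ℚ} (h : BigC N δ μ) (S0 : Finset K) :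
    ∃ (m : ℕ) (ν : Fin p → ℤ), 1 ≤ m ∧ (∀ i, (m : ℚ) * μ i = ν i) ∧ ∃ η : K, η ≠ 0 ∧
      ∀ s ∈ S0, ZSec N δ ν (η * s) := by
  classical
  obtain ⟨m, ν, hm, hν, G, S, hG, hGs, hSs, hind⟩ := big_common hN h
  obtain ⟨y, hy⟩ : ∃ y : Fin N → K, y = fun i => S i / G := ⟨_, rfl⟩
  rw [← hy] at hind
  have hTB : IsTranscendenceBasis ℂ y := by
    refine hind.isTranscendenceBasis_of_lift_trdeg_le_of_finite ?_
    rw [htr]
    simp
  have halg : Algebra.IsAlgebraic (Algebra.adjoin ℂ (Set.range y)) K := hTB.isAlgebraic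
  obtain ⟨a, ha0, ha⟩ := Algebra.IsAlgebraic.exists_integral_multiples
    (R := Algebra.adjoin ℂ (Set.range y)) S0
  obtain ⟨T, hT⟩ : ∃ T : ℕ, ∀ s ∈ S0, ∀ (P : Place ℂ K) (μ : ℤ), μ ≤ 0 →
      (∀ i, Ge P μ (y i)) → Ge P (T * μ) ((a : K) * s) := by
    have h1 : ∀ s : S0, ∃ E : ℕ, ∀ (P : Place ℂ K) (μ : ℤ), μ ≤ 0 →
        (∀ i, Ge P μ (y i)) → Ge P (E * μ) ((a : K) * s) := by
      intro s
      have h2 := ha s s.2
      rw [Algebra.smul_def] at h2
      exact ge_int h2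
    choose E' hE' using h1
    refine ⟨∑ s, E' s, fun s hs P μ hμ h => (hE' ⟨s, hs⟩ P μ hμ h).mono ?_⟩
    have h3 : E' ⟨s, hs⟩ ≤ ∑ s, E' s :=
      Finset.single_le_sum (f := E') (fun _ _ => Nat.zero_le _) (Finset.mem_univ _)
    have h4 : (E' ⟨s, hs⟩ : ℤ) ≤ ((∑ s, E' s : ℕ) : ℤ) := by exact_mod_cast h3
    nlinarith
  have ha0' : (a : K) ≠ 0 := fun h => ha0 (Subtype.ext h)
  refine ⟨(T + 1) * m, fun i => (T + 1) * ν i, Nat.mul_pos (Nat.succ_pos _) hm, fun i => ?_,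
    (a : K) * G ^ (T + 1), mul_ne_zero ha0' (pow_ne_zero _ hG), fun s hs P hP => ?_⟩
  · push_cast
    rw [← hν i]
    ring
  · obtain ⟨c, hc⟩ : ∃ c : ℤ, c = ⌈- ∑ i, (ν i : ℚ) * δ i P⌉ := ⟨_, rfl⟩
    have hGc : c ≤ P.ord G := by
      rw [hc]
      exact Int.ceil_le.2 ((hGs P hP).resolve_left hG)
    have hyc : ∀ i, Ge P (c - P.ord G) (y i) := by
      intro i
      rw [hy]
      rcases hSs i P hP with h1 | h1
      · left
        simp [h1]
      · by_cases h0 : S i = 0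
        · left
          simp [h0]
        right
        have h2 : c ≤ P.ord (S i) := by
          rw [hc]
          exact Int.ceil_le.2 h1
        have h3 : P.ord (S i) = P.ord (S i / G) + P.ord G := by
          rw [← P.ord_mul (div_ne_zero h0 hG) hG, div_mul_cancel₀ _ hG]
        linarith
    have h1 := hT s hs P (c - P.ord G) (by linarith) hyc
    have h2 : Ge P ((T + 1 : ℕ) * P.ord G) (G ^ (T + 1)) :=
      (show Ge P (P.ord G) G from Or.inr le_rfl).pow (T + 1)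
    have h3 := (h1.mul h2).mono (M := (T + 1) * c) (by push_cast; nlinarith)
    have h4 : (a : K) * s * G ^ (T + 1) = (a : K) * G ^ (T + 1) * s := by ring
    rw [h4] at h3
    rcases h3 with h3 | h3
    · exact Or.inl h3
    · right
      have h5 : - ∑ i, (ν i : ℚ) * δ i P ≤ c := by
        rw [hc]
        exact Int.le_ceil _
      have h6 : (((T + 1) * c : ℤ) : ℚ) ≤ (P.ord ((a : K) * G ^ (T + 1) * s) : ℚ) := by
        exact_mod_cast h3
      have h7 : ∑ i, (((T + 1 : ℤ) * ν i : ℤ) : ℚ) * δ i P =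
          (T + 1) * ∑ i, (ν i : ℚ) * δ i P := by
        rw [Finset.mul_sum]
        push_cast
        exact Finset.sum_congr rfl fun i _ => by ring
      have h8 : (T + 1 : ℚ) * (- ∑ i, (ν i : ℚ) * δ i P) ≤ (T + 1) * c :=
        mul_le_mul_of_nonneg_left h5 (by positivity)
      push_cast at h6 h7 ⊢
      rw [h7]
      linarith

variable {N0 : ℕ} {g : Fin N0 → Fin p → ℤ} {f : Fin N0 → K} {δ : Fin p → Place ℂ K → ℚ}

/-- semiample combinations have representations of minimal value -/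
theorem semi_rp (h : Gns N δ g f) {μ : Fin p → ℚ} (hμ : SemiA N δ μ) {P : Place ℂ K}
    (hP : Divisorial N P) : ∃ e, Rp g e μ ∧ ∑ b, e b * og f P b ≤ - ∑ i, μ i * δ i P := by
  obtain ⟨k, hk, ν, hν, hb⟩ := hμ
  obtain ⟨η, hη0, hη, hle⟩ := hb P hP
  obtain ⟨e, he, hle2⟩ := rp_of_sec h hk hν hη0 hη P
  refine ⟨e, he, ?_⟩
  have hk0 : (0 : ℚ) < k := by exact_mod_cast hk
  have h4 : (k : ℚ) * ∑ i, μ i * δ i P = ∑ i, (ν i : ℚ) * δ i P := by
    rw [Finset.mul_sum]
    refine Finset.sum_congr rfl fun i _ => ?_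
    rw [← hν i]
    ring
  have h5 : (k : ℚ) * ∑ b, e b * og f P b ≤ k * (- ∑ i, μ i * δ i P) := by linarith
  exact le_of_mul_le_mul_left h5 hk0

/-- a finite set of sections of a semiample combination without base points -/
theorem semi_fin (h : Gns N δ g f) {A : Fin p → ℚ} (hA : SemiA N δ A) {P0 : Place ℂ K}
    (hP0 : Divisorial N P0) :
    ∃ (M : ℕ) (ν : Fin p → ℤ), 1 ≤ M ∧ (∀ i, (M : ℚ) * A i = ν i) ∧ ∃ S : Finset K,
      ∀ P : Place ℂ K, Divisorial N P → ∃ s ∈ S, s ≠ 0 ∧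
        (P.ord s : ℚ) ≤ - ∑ i, (ν i : ℚ) * δ i P := by
  classical
  obtain ⟨M, hM, hden⟩ := exists_cden (fun (b : Fin N0) (i : Fin p) => (g b i : ℚ)) A
  have hbas : ∀ P, Divisorial N P → ∃ e, Rp g e A ∧ Ind (fun b i => (g b i : ℚ)) e ∧
      ∑ b, e b * og f P b ≤ - ∑ i, A i * δ i P := by
    intro P hP
    obtain ⟨e0, he0, hv0⟩ := semi_rp h hA hP
    obtain ⟨e, he, hi, hmin⟩ := exists_min (w := fun b i => (g b i : ℚ)) (c := og f P)
      (μ := A) (fun e he => low_bd h hP he) ⟨e0, he0⟩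
    exact ⟨e, he, hi, (hmin e0 he0).trans hv0⟩
  obtain ⟨e1, he1, hi1, -⟩ := hbas P0 hP0
  obtain ⟨e1', he1'⟩ := hden e1 he1 hi1
  obtain ⟨ν, hν⟩ : ∃ ν : Fin p → ℤ, ∀ i, (M : ℚ) * A i = ν i := by
    refine ⟨fun i => ∑ b, (e1' b : ℤ) * g b i, fun i => ?_⟩
    rw [← he1.2 i, Finset.mul_sum]
    push_cast
    refine Finset.sum_congr rfl fun b _ => ?_
    rw [← he1' b]
    ring
  refine ⟨M, ν, hM, hν, (fin_ind (fun (b : Fin N0) (i : Fin p) => (g b i : ℚ)) A).toFinset.image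
    (fun e => ∏ b, f b ^ ((M : ℚ) * e b).num.toNat), fun P hP => ?_⟩
  obtain ⟨e, he, hi, hv⟩ := hbas P hP
  obtain ⟨e', he'⟩ := hden e he hi
  have hee : (fun b => ((M : ℚ) * e b).num.toNat) = e' := by
    funext b
    rw [he' b]
    simp
  refine ⟨_, Finset.mem_image.2 ⟨e, (Set.Finite.mem_toFinset _).2 ⟨he, hi⟩, rfl⟩, ?_⟩
  have hee' : ∀ b, ((M : ℚ) * e b).num.toNat = e' b := fun b => congrFun hee b
  simp only [hee']
  obtain ⟨h1, h2, h3⟩ := mono_of_rp h he he' hν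
  refine ⟨h1, ?_⟩
  rw [h3 P]
  have h4 := mul_le_mul_of_nonneg_left hv (Nat.cast_nonneg (α := ℚ) M)
  have h5 : (M : ℚ) * ∑ i, A i * δ i P = ∑ i, (ν i : ℚ) * δ i P := by
    rw [Finset.mul_sum]
    refine Finset.sum_congr rfl fun i _ => ?_
    rw [← hν i]
    ring
  linarith

/-- **Big combinations are in the interior of the cone of the generators.** -/
theorem big_int (h : Gns N δ g f) (hN : 1 ≤ N) (htr : Algebra.trdeg ℂ K = N) {P0 : Place ℂ K}
    (hP0 : Divisorial N P0) {A : Fin p → ℚ} (hA : Amp N δ A) {μ : Fin p → ℚ} (hμ : BigC N δ μ)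
    (ξ : Fin p → ℚ) : ∃ s : ℚ, 0 < s ∧ ∃ e, Rp g e fun i => μ i + s * ξ i := by
  classical
  obtain ⟨ε, hε, hA'⟩ := hA
  obtain ⟨M, νA, hM, hνA, S, hS⟩ := semi_fin h (hA' A fun i => by simp [hε.le]) hP0
  obtain ⟨m, ν, hm, hν, η, hη, hsec⟩ := kod hN htr hμ S
  have hM0 : (0 : ℚ) < M := by exact_mod_cast hM
  have hm0 : (0 : ℚ) < m := by exact_mod_cast hm
  -- the difference is effective
  have hE : ZSec N δ (fun i => ν i - νA i) η := by
    intro P hP
    right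
    obtain ⟨s, hs, hs0, hle⟩ := hS P hP
    have h1 := (hsec s hs P hP).resolve_left (mul_ne_zero hη hs0)
    rw [P.ord_mul hη hs0] at h1
    have h2 : ∑ i, ((ν i - νA i : ℤ) : ℚ) * δ i P =
        ∑ i, (ν i : ℚ) * δ i P - ∑ i, (νA i : ℚ) * δ i P := by
      rw [← Finset.sum_sub_distrib]
      push_cast
      exact Finset.sum_congr rfl fun i _ => by ring
    rw [h2]
    push_cast at h1
    linarith
  obtain ⟨e1, he1, -⟩ := rp_of_sec h (μ := fun i => ((ν i - νA i : ℤ) : ℚ)) (m := 1) le_rfl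
    (ν := fun i => ν i - νA i) (fun i => by push_cast; ring) hη hE P0
  -- a small multiple of the direction
  obtain ⟨C, hC0, hC⟩ : ∃ C : ℚ, 0 < C ∧ ∀ i, |ξ i| ≤ C := by
    refine ⟨∑ i, |ξ i| + 1, by positivity, fun i => ?_⟩
    have := Finset.single_le_sum (f := fun i => |ξ i|) (fun i _ => abs_nonneg _)
      (Finset.mem_univ i)
    linarith
  obtain ⟨e2, he2, -⟩ := semi_rp h (hA' (fun i => A i + ε / C * ξ i) fun i => by
    rw [add_sub_cancel_left, abs_mul, abs_of_pos (div_pos hε hC0)]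
    calc ε / C * |ξ i| ≤ ε / C * C := mul_le_mul_of_nonneg_left (hC i) (div_pos hε hC0).le
      _ = ε := by field_simp) hP0
  refine ⟨M * (ε / C) / m, div_pos (mul_pos hM0 (div_pos hε hC0)) hm0,
    fun b => 1 / m * (e1 b + M * e2 b), ?_⟩
  · have h1 := rp_smul (rp_add he1 (rp_smul he2 hM0.le)) (s := 1 / m) (by positivity)
    have h2 : (fun i => 1 / (m : ℚ) * (((ν i - νA i : ℤ) : ℚ) + M * (A i + ε / C * ξ i))) =
        fun i => μ i + M * (ε / C) / m * ξ i := by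
      funext i
      push_cast
      rw [← hν i, ← hνA i]
      field_simp
      ring
    rw [h2] at h1
    exact h1

end Pool.Agent.Helper15K1.MM
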