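import Mathlib

/-!
Linear programming over `ℚ`: a linear function which is bounded below on the nonnegative
solutions of a linear system attains its minimum at a solution with independent support.
-/

set_option autoImplicit false

namespace Pool.Agent.Helper15K1.MM

variable {ι κ : Type} [Fintype ι]

/-- nonnegative solutions -/
def Fea (w : ι → κ → ℚ) (μ : κ → ℚ) (e : ι → ℚ) : Prop :=
  (∀ b, 0 ≤ e b) ∧ ∀ i, ∑ b, e b * w b i = μ i

/-- independent support -/
def Ind (w : ι → κ → ℚ) (e : ι → ℚ) : Prop :=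
  ∀ z : ι → ℚ, (∀ b, e b = 0 → z b = 0) → (∀ i, ∑ b, z b * w b i = 0) → ∀ b, z b = 0

theorem sum_lin (c e z : ι → ℚ) (s : ℚ) :
    ∑ b, (e b + s * z b) * c b = ∑ b, e b * c b + s * ∑ b, z b * c b := by
  rw [Finset.mul_sum, ← Finset.sum_add_distrib]
  exact Finset.sum_congr rfl fun b _ => by ring

/-- one step of the reduction -/
theorem red_step {w : ι → κ → ℚ} {μ : κ → ℚ} {c : ι → ℚ} {v0 : ℚ}
    (hb : ∀ e, Fea w μ e → v0 ≤ ∑ b, e b * c b) {e : ι → ℚ} (he : Fea w μ e) (hi : ¬ Ind w e) :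
    ∃ e', Fea w μ e' ∧ ∑ b, e' b * c b ≤ ∑ b, e b * c b ∧ (∀ b, e b = 0 → e' b = 0) ∧
      ∃ b, e b ≠ 0 ∧ e' b = 0 := by
  classical
  unfold Ind at hi
  push Not at hi
  obtain ⟨z, hz1, hz2, b0, hb0⟩ := hi
  -- a direction with nonpositive cost and a negative entry
  obtain ⟨y, hy1, hy2, hy3, b1, hb1⟩ : ∃ y : ι → ℚ, (∀ b, e b = 0 → y b = 0) ∧
      (∀ i, ∑ b, y b * w b i = 0) ∧ ∑ b, y b * c b ≤ 0 ∧ ∃ b, y b < 0 := by
    have key : ∀ y : ι → ℚ, (∀ b, e b = 0 → y b = 0) → (∀ i, ∑ b, y b * w b i = 0) →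
        (∃ b, y b ≠ 0) → ∑ b, y b * c b ≤ 0 → ∃ y : ι → ℚ, (∀ b, e b = 0 → y b = 0) ∧
      (∀ i, ∑ b, y b * w b i = 0) ∧ ∑ b, y b * c b ≤ 0 ∧ ∃ b, y b < 0 := by
      intro y h1 h2 h3 h4
      by_cases h5 : ∃ b, y b < 0
      · exact ⟨y, h1, h2, h4, h5⟩
      push Not at h5
      rcases lt_or_eq_of_le h4 with h6 | h6
      · exfalso
        obtain ⟨C, hC⟩ : ∃ C, C = ∑ b, y b * c b := ⟨_, rfl⟩
        rw [← hC] at h6
        obtain ⟨E, hE⟩ : ∃ E, E = ∑ b, e b * c b := ⟨_, rfl⟩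
        have h7 := hb e he
        rw [← hE] at h7
        obtain ⟨s, hs⟩ : ∃ s : ℚ, s = (E - v0 + 1) / (-C) := ⟨_, rfl⟩
        have hs0 : 0 ≤ s := by
          rw [hs]
          exact div_nonneg (by linarith) (by linarith)
        have h8 := hb (fun b => e b + s * y b) ⟨fun b => add_nonneg (he.1 b)
          (mul_nonneg hs0 (h5 b)), fun i => by rw [sum_lin, he.2, h2, mul_zero, add_zero]⟩
        rw [sum_lin, ← hC, ← hE] at h8
        have h9 : s * C = -(E - v0 + 1) := by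
          rw [hs, div_mul_eq_mul_div, div_eq_iff (by linarith)]
          ring
        linarith
      · obtain ⟨b, hb⟩ := h3
        refine ⟨fun b => - y b, fun b hb => by simp [h1 b hb], fun i => ?_, ?_, b, ?_⟩
        · simp only [neg_mul, Finset.sum_neg_distrib, h2, neg_zero]
        · simp only [neg_mul, Finset.sum_neg_distrib, h6, neg_zero, le_refl]
        · have := lt_of_le_of_ne (h5 b) (Ne.symm hb)
          linarith
    rcases le_total (∑ b, z b * c b) 0 with h | h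
    · exact key z hz1 hz2 ⟨b0, hb0⟩ h
    · refine key (fun b => - z b) (fun b hb => by simp [hz1 b hb]) (fun i => ?_)
        ⟨b0, neg_ne_zero.2 hb0⟩ ?_
      · simp only [neg_mul, Finset.sum_neg_distrib, hz2, neg_zero]
      · simp only [neg_mul, Finset.sum_neg_distrib]
        linarith
  -- the step length
  obtain ⟨b2, hb2, hmin⟩ := Finset.exists_min_image (Finset.univ.filter fun b => y b < 0)
    (fun b => e b / (- y b)) ⟨b1, by simp [hb1]⟩
  rw [Finset.mem_filter] at hb2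
  have hb2' : e b2 ≠ 0 := fun h => by
    have := hy1 b2 h
    linarith [hb2.2]
  have hs0 : 0 ≤ e b2 / (- y b2) := div_nonneg (he.1 b2) (by linarith [hb2.2])
  refine ⟨fun b => e b + e b2 / (- y b2) * y b, ⟨fun b => ?_, fun i => ?_⟩, ?_, fun b hb => ?_,
    b2, hb2', ?_⟩
  · rcases lt_or_ge (y b) 0 with h | h
    · have h1 := hmin b (by simp [h])
      have h2 : e b2 / (- y b2) * (- y b) ≤ e b := by
        have h3 := mul_le_mul_of_nonneg_right h1 (by linarith : 0 ≤ - y b)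
        rwa [div_mul_cancel₀ (e b) (by linarith : - y b ≠ 0)] at h3
      linarith
    · exact add_nonneg (he.1 b) (mul_nonneg hs0 h)
  · rw [sum_lin, he.2, hy2, mul_zero, add_zero]
  · rw [sum_lin]
    have := mul_nonneg hs0 (neg_nonneg.2 hy3)
    linarith
  · beta_reduce
    rw [hb, hy1 b hb, mul_zero, add_zero]
  · have h : y b2 ≠ 0 := by linarith [hb2.2]
    field_simp
    ring

/-- **Reduction to independent supports.** -/
theorem exists_ind {w : ι → κ → ℚ} {μ : κ → ℚ} {c : ι → ℚ} {v0 : ℚ}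
    (hb : ∀ e, Fea w μ e → v0 ≤ ∑ b, e b * c b) {e : ι → ℚ} (he : Fea w μ e) :
    ∃ e', Fea w μ e' ∧ Ind w e' ∧ ∑ b, e' b * c b ≤ ∑ b, e b * c b := by
  classical
  obtain ⟨n, hn⟩ : ∃ n, n = (Finset.univ.filter fun b => e b ≠ 0).card := ⟨_, rfl⟩
  induction n using Nat.strong_induction_on generalizing e with
  | _ n ih =>
    by_cases hi : Ind w e
    · exact ⟨e, he, hi, le_rfl⟩
    obtain ⟨e', he', hle, hsup, b, hb1, hb2⟩ := red_step hb he hi
    obtain ⟨e'', h1, h2, h3⟩ := ih _ (by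
      rw [hn]
      refine Finset.card_lt_card ⟨fun b' hb' => ?_, fun h => ?_⟩
      · rw [Finset.mem_filter] at hb' ⊢
        exact ⟨hb'.1, fun h => hb'.2 (hsup b' h)⟩
      · have h4 := h (show b ∈ Finset.univ.filter fun b => e b ≠ 0 by simp [hb1])
        rw [Finset.mem_filter] at h4
        exact h4.2 hb2) he' rfl
    exact ⟨e'', h1, h2, h3.trans hle⟩

/-- there are finitely many solutions with independent support -/
theorem fin_ind (w : ι → κ → ℚ) (μ : κ → ℚ) : {e | Fea w μ e ∧ Ind w e}.Finite := by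
  classical
  refine Set.Finite.of_injOn (f := fun e : ι → ℚ => Finset.univ.filter fun b => e b ≠ 0)
    (t := Set.univ) (fun _ _ => Set.mem_univ _) ?_ Set.finite_univ
  intro e he e' he' hee
  funext b
  have h1 : ∀ b, e b = 0 ↔ e' b = 0 := by
    intro b
    have h2 : b ∈ Finset.univ.filter (fun b => e b ≠ 0) ↔
        b ∈ Finset.univ.filter (fun b => e' b ≠ 0) := by
      have h3 : (Finset.univ.filter fun b => e b ≠ 0) = Finset.univ.filter fun b => e' b ≠ 0 := hee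
      rw [h3]
    simp only [Finset.mem_filter, Finset.mem_univ, true_and] at h2
    tauto
  have h2 := he.2 (fun b => e b - e' b) (fun b hb => by rw [hb, (h1 b).1 hb, sub_zero])
    (fun i => by
      simp only [sub_mul, Finset.sum_sub_distrib]
      rw [he.1.2, he'.1.2, sub_self]) b
  linarith

/-- **The minimum is attained**, at a solution with independent support. -/
theorem exists_min {w : ι → κ → ℚ} {μ : κ → ℚ} {c : ι → ℚ} {v0 : ℚ}
    (hb : ∀ e, Fea w μ e → v0 ≤ ∑ b, e b * c b) (hne : ∃ e, Fea w μ e) :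
    ∃ e, Fea w μ e ∧ Ind w e ∧ ∀ e', Fea w μ e' → ∑ b, e b * c b ≤ ∑ b, e' b * c b := by
  obtain ⟨e0, he0⟩ := hne
  obtain ⟨e1, h1, h2, -⟩ := exists_ind hb he0
  obtain ⟨e, he, hmin⟩ := Set.exists_min_image _ (fun e => ∑ b, e b * c b) (fin_ind w μ)
    ⟨e1, h1, h2⟩
  refine ⟨e, he.1, he.2, fun e' he' => ?_⟩
  obtain ⟨e'', h3, h4, h5⟩ := exists_ind hb he'
  exact (hmin e'' ⟨h3, h4⟩).trans h5

/-- **A common denominator.** -/
theorem exists_cden (w : ι → κ → ℚ) (μ : κ → ℚ) : ∃ M : ℕ, 1 ≤ M ∧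
    ∀ e, Fea w μ e → Ind w e → ∃ e' : ι → ℕ, ∀ b, (M : ℚ) * e b = e' b := by
  classical
  obtain ⟨F, hF⟩ : ∃ F : Finset (ι → ℚ), F = (fin_ind w μ).toFinset := ⟨_, rfl⟩
  refine ⟨∏ e ∈ F, ∏ b, (e b).den, Nat.one_le_iff_ne_zero.2 (Finset.prod_ne_zero_iff.2 fun e _ =>
    Finset.prod_ne_zero_iff.2 fun b _ => (e b).den_ne_zero), fun e he hi => ?_⟩
  have heF : e ∈ F := by
    rw [hF, Set.Finite.mem_toFinset]
    exact ⟨he, hi⟩
  have h1 : ∀ b, ∃ n : ℕ, ((∏ e ∈ F, ∏ b, (e b).den : ℕ) : ℚ) * e b = n := by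
    intro b
    obtain ⟨k, hk⟩ : (e b).den ∣ ∏ e ∈ F, ∏ b, (e b).den :=
      (Finset.dvd_prod_of_mem (fun b => (e b).den) (Finset.mem_univ b)).trans
        (Finset.dvd_prod_of_mem (fun e : ι → ℚ => ∏ b, (e b).den) heF)
    refine ⟨k * (e b).num.toNat, ?_⟩
    have h2 : ((e b).num.toNat : ℚ) = (e b).num := by
      have h3 : ((e b).num.toNat : ℤ) = (e b).num := Int.toNat_of_nonneg (Rat.num_nonneg.2 (he.1 b))
      exact_mod_cast h3
    have h3 : ((e b).den : ℚ) * e b = (e b).num := by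
      rw [mul_comm]
      exact Rat.mul_den_eq_num (e b)
    rw [hk]
    push_cast
    rw [h2, ← h3]
    ring
  choose e' he' using h1
  exact ⟨e', he'⟩

end Pool.Agent.Helper15K1.MM
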