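import Pool.Agent.Helper15K1.MM.Kod
import Pool.Agent.Q57.CX.Top
import Pool.Agent.Q57.GE.Plc

/-!
The minimal model program with scaling for combinations of divisors with finitely generated
multigraded ring of sections.
-/

set_option autoImplicit false
set_option linter.overlappingInstances false
set_option linter.unusedSectionVars false
set_option maxHeartbeats 1000000

open FF MvPolynomial Pool.Agent.W603.LV Pool.Agent.W602.GT Pool.Agent.W602.Cov
open Pool.Agent.TH756.PR Pool.Agent.TH122.AB Pool.Agent.TH756.PN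
open Pool.Agent.Q57.FT Pool.Agent.Q57.CX Pool.Agent.Q57.HK

namespace Pool.Agent.Helper15K1.MM

variable {p N : ℕ} {K : Type} [Field K] [Algebra ℂ K] {δ : Fin p → Place ℂ K → ℚ}

/-- **The program.** -/
theorem main_prog (h : (coxRing N δ).FG) (hN : 1 ≤ N) (htr : Algebra.trdeg ℂ K = N)
    (hpl : ∃ P : Place ℂ K, Divisorial N P) {A : Fin p → ℚ} (hA : Amp N δ A) :
    ∃ B : ℕ, ∀ (κ lam : Fin p → ℚ) (α k : Place ℂ K → ℚ), MdlD N δ κ lam α k →
      ∃ (L : ℕ) (τ : ℕ → ℚ) (αs ks : ℕ → Place ℂ K → ℚ), L < B ∧ τ 0 = 0 ∧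
        (∀ P, Divisorial N P → αs 0 P = α P ∧ ks 0 P = k P) ∧
        (∀ j < L, τ j < τ (j + 1) ∧
          (∀ t, τ j ≤ t → t ≤ τ (j + 1) →
            SemP N δ (fun i => lam i + t * κ i) fun P => αs j P + t * ks j P) ∧
          (∀ P, Divisorial N P → ks (j + 1) P ≤ ks j P) ∧
          ∃ P, Divisorial N P ∧ ks (j + 1) P < ks j P) ∧
        (((∀ t, τ L ≤ t → SemP N δ (fun i => lam i + t * κ i) fun P => αs L P + t * ks L P) ∧
            SemP N δ κ (ks L)) ∨
          ∃ T, τ L < T ∧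
            (∀ t, τ L ≤ t → t ≤ T →
              SemP N δ (fun i => lam i + t * κ i) fun P => αs L P + t * ks L P) ∧
            (∀ t, T < t → ∀ (m : ℕ) (ν : Fin p → ℤ), 1 ≤ m →
              (∀ i, (m : ℚ) * (lam i + t * κ i) = ν i) → ∀ f, ZSec N δ ν f → f = 0) ∧
            ¬ BigC N δ fun i => lam i + T * κ i) := by
  classical
  obtain ⟨N0, g, f, hg1, hg2⟩ := gens_of_fg h
  have hgen : Gns N δ g f := ⟨hg1, hg2⟩
  obtain ⟨B, hB⟩ := term_dir h
  obtain ⟨P0, hP0⟩ := hpl
  refine ⟨B, fun κ lam α k hmdl => ?_⟩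
  obtain ⟨ε, hε, hopt⟩ := opt_of_mdl ⟨hg1, hg2⟩ hmdl
  have hfe : ∀ t, 0 ≤ t → t ≤ ε → FeB g lam κ Finset.univ t := by
    intro t h0 h1
    obtain ⟨e, he, -⟩ := (hopt P0 hP0 t h0 h1).2
    exact ⟨h0, e, he.1, fun b hb => absurd (Finset.mem_univ b) hb, he.2⟩
  obtain ⟨L, τ, αs, ks, hτ0, hstep, ⟨t2, ht2, hft2⟩, hend⟩ :=
    exists_prg (g := g) (lam := lam) (κ := κ) (Dv := Divisorial N) (o := og f)
      (fun P hP μ => hbd hgen P hP μ) (hfe 0 le_rfl hε.le) ⟨ε, hε, hfe ε hε.le le_rfl⟩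
  have hf0 := hfe 0 le_rfl hε.le
  -- the times are nonnegative
  have hτm : ∀ j ≤ L, 0 ≤ τ j ∧ τ j ≤ τ L := by
    have h1 : ∀ j ≤ L, 0 ≤ τ j := by
      intro j
      induction j with
      | zero => exact fun _ => hτ0.ge
      | succ j ih => exact fun hj => (ih (by omega)).trans (hstep j (by omega)).1.le
    have h2 : ∀ i, i ≤ L → τ (L - i) ≤ τ L := by
      intro i
      induction i with
      | zero => exact fun _ => le_rfl
      | succ i ih =>
        intro hi
        have h3 := (hstep (L - (i + 1)) (by omega)).1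
        have h4 : L - (i + 1) + 1 = L - i := by omega
        rw [h4] at h3
        exact h3.le.trans (ih (by omega))
    intro j hj
    refine ⟨h1 j hj, ?_⟩
    have h3 := h2 (L - j) (by omega)
    rwa [Nat.sub_sub_self hj] at h3
  have hfeas : ∀ t, 0 ≤ t → t ≤ t2 → FeB g lam κ Finset.univ t := fun t h0 h1 =>
    feb_conv hf0 hft2 h0 h1
  have hrep : ∀ t, FeB g lam κ Finset.univ t → ∃ e, Rp g e fun i => lam i + t * κ i := by
    rintro t ⟨-, e, h1, -, h3⟩
    exact ⟨e, h1, h3⟩
  have hsem : ∀ j < L, ∀ t, τ j ≤ t → t ≤ τ (j + 1) →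
      SemP N δ (fun i => lam i + t * κ i) fun P => αs j P + t * ks j P := by
    intro j hj t h1 h2
    refine semp_of_opt hgen (hrep t (hfeas t ((hτm j hj.le).1.trans h1) ?_)) fun P hP =>
      (hstep j hj).2.1 P hP t ⟨h1, h2⟩
    exact h2.trans ((hτm (j + 1) hj).2.trans ht2.le)
  have hsemL : ∀ t, τ L ≤ t → FeB g lam κ Finset.univ t →
      SemP N δ (fun i => lam i + t * κ i) fun P => αs L P + t * ks L P := fun t h1 h2 =>
    semp_of_opt hgen (hrep t h2) fun P hP => hend P hP t ⟨h1, h2⟩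
  refine ⟨L, τ, αs, ks, ?_, hτ0, fun P hP => ?_, fun j hj => ⟨(hstep j hj).1, hsem j hj,
    (hstep j hj).2.2⟩, ?_⟩
  · -- the bound
    refine (hB κ).2 L (fun j i => lam i + τ j * κ i) (fun j P => αs j P + τ j * ks j P) ks
      (fun j hj => ?_) fun j hj => (hstep j hj).2.2
    have key : ∀ b, τ j < b → (∀ t, τ j ≤ t → t ≤ b →
        SemP N δ (fun i => lam i + t * κ i) fun P => αs j P + t * ks j P) →
        MdlD N δ κ (fun i => lam i + τ j * κ i) (fun P => αs j P + τ j * ks j P) (ks j) := by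
      intro b hb hs
      refine ⟨b - τ j, by linarith, fun t h0 h1 => ?_⟩
      have h2 := hs (τ j + t) (by linarith) (by linarith)
      have h3 : (fun i => lam i + (τ j + t) * κ i) = fun i => lam i + τ j * κ i + t * κ i := by
        funext i
        ring
      have h4 : (fun P => αs j P + (τ j + t) * ks j P) =
          fun P => αs j P + τ j * ks j P + t * ks j P := by
        funext P
        ring
      rw [h3, h4] at h2
      exact h2
    rcases Nat.lt_or_ge j L with h1 | h1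
    · exact key _ (hstep j h1).1 (hsem j h1)
    · obtain rfl : j = L := le_antisymm hj h1
      exact key t2 ht2 fun t h2 h3 => hsemL t h2 (hfeas t ((hτm j le_rfl).1.trans h2) h3)
  · -- the first model
    obtain ⟨b, hb, h0, h1⟩ : ∃ b, 0 < b ∧ Opt g (og f P) (fun i => lam i + 0 * κ i)
        (-(αs 0 P + 0 * ks 0 P)) ∧ ∀ t, 0 ≤ t → t ≤ b → Opt g (og f P)
        (fun i => lam i + t * κ i) (-(αs 0 P + t * ks 0 P)) := by
      rcases Nat.eq_zero_or_pos L with hL | hL
      · rw [hL, hτ0] at ht2 hend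
        exact ⟨t2, ht2, hend P hP 0 ⟨le_rfl, hf0⟩, fun t h1 h2 => hend P hP t ⟨h1,
          feb_conv hf0 hft2 h1 h2⟩⟩
      · obtain ⟨h1, h2, -, -⟩ := hstep 0 hL
        rw [hτ0, zero_add] at h1 h2
        exact ⟨τ 1, h1, h2 P hP 0 ⟨le_rfl, h1.le⟩, fun t h3 h4 => h2 P hP t ⟨h3, h4⟩⟩
    have h2 := opt_unique h0 (hopt P hP 0 le_rfl hε.le)
    have hm : 0 < min b ε := lt_min hb hε
    have h3 := opt_unique (h1 _ hm.le (min_le_left _ _)) (hopt P hP _ hm.le (min_le_right _ _))
    have h4 : αs 0 P = α P := by linarith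
    refine ⟨h4, ?_⟩
    rw [h4] at h3
    have h5 : min b ε * ks 0 P = min b ε * k P := by linarith
    exact mul_left_cancel₀ hm.ne' h5
  · -- the end
    by_cases hub : ∃ M, ∀ t, FeB g lam κ Finset.univ t → t ≤ M
    · right
      obtain ⟨M, hM⟩ := hub
      obtain ⟨T, hT, hTmax⟩ := feb_max ⟨0, hf0⟩ hM
      refine ⟨T, lt_of_lt_of_le ht2 (hTmax t2 hft2), fun t h1 h2 => hsemL t h1
        (feb_conv hf0 hT ((hτm L le_rfl).1.trans h1) h2), fun t ht m ν hm hν η hη => ?_,
        fun hbig => ?_⟩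
      · by_contra h0
        obtain ⟨e, he, -⟩ := rp_of_sec hgen hm hν h0 hη P0
        have h1 := hTmax t ⟨hT.1.trans ht.le, e, he.1, fun b hb => absurd (Finset.mem_univ b) hb,
          he.2⟩
        linarith
      · obtain ⟨s, hs, e, he⟩ := big_int hgen hN htr hP0 hA hbig κ
        have h1 : (fun i => lam i + T * κ i + s * κ i) = fun i => lam i + (T + s) * κ i := by
          funext i
          ring
        rw [h1] at he
        have h2 := hTmax (T + s) ⟨by linarith [hT.1], e, he.1,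
          fun b hb => absurd (Finset.mem_univ b) hb, he.2⟩
        linarith
    · left
      push Not at hub
      have hall : ∀ t, 0 ≤ t → FeB g lam κ Finset.univ t := by
        intro t ht
        obtain ⟨t', ht', hlt⟩ := hub t
        exact feb_conv hf0 ht' ht hlt.le
      have hopt' : ∀ P, Divisorial N P → Opt g (og f P) κ (-(ks L P)) := fun P hP =>
        opt_dir fun t ht => hend P hP t ⟨ht, hall t ((hτm L le_rfl).1.trans ht)⟩
      refine ⟨fun t ht => hsemL t ht (hall t ((hτm L le_rfl).1.trans ht)), ?_⟩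
      obtain ⟨e, he, -⟩ := (hopt' P0 hP0).2
      exact semp_of_opt hgen ⟨e, he⟩ hopt'

end Pool.Agent.Helper15K1.MM
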