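import Pool.Agent.Helper15K1.MM.Seg

/-!
The program along a half-line, for a family of cost functions.
-/

set_option autoImplicit false

namespace Pool.Agent.Helper15K1.MM

open Pool.Agent.Q57.HK

variable {p N0 : ℕ} {g : Fin N0 → Fin p → ℤ} {lam κ : Fin p → ℚ} {Q : Type}

/-- the optimal values are affine on `J` -/
def AffOn (g : Fin N0 → Fin p → ℤ) (lam κ : Fin p → ℚ) (Dv : Q → Prop) (o : Q → Fin N0 → ℚ)
    (J : Set ℚ) (α k : Q → ℚ) : Prop :=
  ∀ P, Dv P → ∀ t ∈ J, Opt g (o P) (fun i => lam i + t * κ i) (-(α P + t * k P))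

/-- the program which starts at the time `s` -/
def Prg (g : Fin N0 → Fin p → ℤ) (lam κ : Fin p → ℚ) (Dv : Q → Prop) (o : Q → Fin N0 → ℚ)
    (s : ℚ) (L : ℕ) (τ : ℕ → ℚ) (α k : ℕ → Q → ℚ) : Prop :=
  τ 0 = s ∧ (∀ j < L, τ j < τ (j + 1) ∧
    AffOn g lam κ Dv o (Set.Icc (τ j) (τ (j + 1))) (α j) (k j) ∧
    (∀ P, Dv P → k (j + 1) P ≤ k j P) ∧ ∃ P, Dv P ∧ k (j + 1) P < k j P) ∧
  (∃ t, τ L < t ∧ FeB g lam κ Finset.univ t) ∧
  AffOn g lam κ Dv o {t | τ L ≤ t ∧ FeB g lam κ Finset.univ t} (α L) (k L)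

/-- a simultaneous choice -/
theorem aff_all {Dv : Q → Prop} {o : Q → Fin N0 → ℚ}
    (hbd : ∀ P, Dv P → ∀ μ, ∃ v0 : ℚ, ∀ e, Rp g e μ → v0 ≤ ∑ b, e b * o P b)
    {J : Set ℚ} {s s' : ℚ} (hs : s ∈ J) (hs' : s' ∈ J) (hlt : s < s') (hJ : ∀ t ∈ J, s ≤ t)
    (hmin : ∀ a ∈ Bk g lam κ, s < a → s' < a)
    (hmax : ∀ a ∈ Bk g lam κ, s' ≤ a → ∀ t ∈ J, t ≤ a)
    (hfe : FeB g lam κ Finset.univ s') :
    ∃ α k : Q → ℚ, AffOn g lam κ Dv o J α k := by
  classical
  have h1 : ∀ P, ∃ a k : ℚ, Dv P → ∀ t ∈ J,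
      Opt g (o P) (fun i => lam i + t * κ i) (-(a + t * k)) := by
    intro P
    by_cases hP : Dv P
    · obtain ⟨a, k, h⟩ := aff_gen (hbd P hP) hs hs' hlt hJ hmin hmax hfe
      exact ⟨a, k, fun _ => h⟩
    · exact ⟨0, 0, fun h => absurd h hP⟩
  choose a k h using h1
  exact ⟨a, k, h⟩

/-- **The program exists.** -/
theorem exists_prg {Dv : Q → Prop} {o : Q → Fin N0 → ℚ}
    (hbd : ∀ P, Dv P → ∀ μ, ∃ v0 : ℚ, ∀ e, Rp g e μ → v0 ≤ ∑ b, e b * o P b) {s : ℚ}
    (hs : FeB g lam κ Finset.univ s) (ht : ∃ t, s < t ∧ FeB g lam κ Finset.univ t) :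
    ∃ (L : ℕ) (τ : ℕ → ℚ) (α k : ℕ → Q → ℚ), Prg g lam κ Dv o s L τ α k := by
  classical
  obtain ⟨n, hn⟩ : ∃ n, n = ((bk_fin (g := g) (lam := lam) (κ := κ)).toFinset.filter
    fun a => s < a ∧ ∃ t, a < t ∧ FeB g lam κ Finset.univ t).card := ⟨_, rfl⟩
  induction n using Nat.strong_induction_on generalizing s with
  | _ n ih =>
    obtain ⟨F, hF⟩ : ∃ F, F = ((bk_fin (g := g) (lam := lam) (κ := κ)).toFinset.filter
      fun a => s < a ∧ ∃ t, a < t ∧ FeB g lam κ Finset.univ t) := ⟨_, rfl⟩
    have hmem : ∀ a, a ∈ F ↔ a ∈ Bk g lam κ ∧ s < a ∧ ∃ t, a < t ∧ FeB g lam κ Finset.univ t := by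
      intro a
      rw [hF, Finset.mem_filter, Set.Finite.mem_toFinset]
    obtain ⟨t0, hst0, ht0⟩ := ht
    rcases F.eq_empty_or_nonempty with hE | hne
    · -- no more breakpoints
      have hno : ∀ a ∈ Bk g lam κ, s < a → ∀ t, a < t → ¬ FeB g lam κ Finset.univ t := by
        intro a ha hsa t hat hft
        have : a ∈ F := (hmem a).2 ⟨ha, hsa, t, hat, hft⟩
        rw [hE] at this
        simp at this
      have hmid : FeB g lam κ Finset.univ ((s + t0) / 2) :=
        feb_conv hs ht0 (by linarith) (by linarith)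
      obtain ⟨α, k, hak⟩ := aff_all (J := {t | s ≤ t ∧ FeB g lam κ Finset.univ t}) (s := s)
        (s' := (s + t0) / 2) hbd ⟨le_rfl, hs⟩ ⟨by linarith, hmid⟩ (by linarith) (fun t ht => ht.1)
        (fun a ha hsa => by
          by_contra hcon
          push Not at hcon
          exact hno a ha hsa t0 (by linarith) ht0)
        (fun a ha hsa t ht => by
          by_contra hcon
          push Not at hcon
          exact hno a ha (by linarith) t hcon ht.2) hmid
      exact ⟨0, fun _ => s, fun _ => α, fun _ => k, rfl, fun j hj => absurd hj (Nat.not_lt_zero j),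
        ⟨t0, hst0, ht0⟩, hak⟩
    · obtain ⟨s1, hs1⟩ : ∃ s1, s1 = F.min' hne := ⟨_, rfl⟩
      have hs1F : s1 ∈ F := by
        rw [hs1]
        exact F.min'_mem hne
      have hs1min : ∀ a ∈ F, s1 ≤ a := fun a ha => by
        rw [hs1]
        exact F.min'_le a ha
      obtain ⟨hs1B, hss1, t1, hs1t1, ht1⟩ := (hmem s1).1 hs1F
      have hfs1 : FeB g lam κ Finset.univ s1 := feb_conv hs ht1 hss1.le hs1t1.le
      obtain ⟨L, τ, α, k, hτ0, hstep, ⟨t2, ht2, hft2⟩, hend⟩ := ih _ (by
        rw [hn, ← hF]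
        refine Finset.card_lt_card ⟨fun a ha => ?_, fun h => ?_⟩
        · rw [Finset.mem_filter, Set.Finite.mem_toFinset] at ha
          exact (hmem a).2 ⟨ha.1, hss1.trans ha.2.1, ha.2.2⟩
        · have h1 := h hs1F
          rw [Finset.mem_filter] at h1
          exact lt_irrefl _ h1.2.1) hfs1 ⟨t1, hs1t1, ht1⟩ rfl
      have hmid : FeB g lam κ Finset.univ ((s + s1) / 2) :=
        feb_conv hs hfs1 (by linarith) (by linarith)
      obtain ⟨a0, k0, hak⟩ := aff_all (J := Set.Icc s s1) (s := s) (s' := (s + s1) / 2) hbd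
        ⟨le_rfl, hss1.le⟩ ⟨by linarith, by linarith⟩ (by linarith) (fun t ht => ht.1)
        (fun a ha hsa => by
          by_contra hcon
          push Not at hcon
          have := hs1min a ((hmem a).2 ⟨ha, hsa, t1, by linarith, ht1⟩)
          linarith)
        (fun a ha hsa t ht => by
          by_contra hcon
          push Not at hcon
          have h2 := ht.2
          have := hs1min a ((hmem a).2 ⟨ha, by linarith, t1, by linarith, ht1⟩)
          linarith) hmid
      -- the data on the next interval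
      obtain ⟨s3, hs13, h3⟩ : ∃ s3, s1 < s3 ∧ ∀ P, Dv P →
          Opt g (o P) (fun i => lam i + s1 * κ i) (-(α 0 P + s1 * k 0 P)) ∧
          Opt g (o P) (fun i => lam i + s3 * κ i) (-(α 0 P + s3 * k 0 P)) := by
        rcases Nat.eq_zero_or_pos L with hL | hL
        · rw [hL, hτ0] at ht2 hend
          exact ⟨t2, ht2, fun P hP => ⟨hend P hP s1 ⟨le_rfl, hfs1⟩, hend P hP t2 ⟨ht2.le, hft2⟩⟩⟩
        · obtain ⟨h1, h2, -, -⟩ := hstep 0 hL
          rw [hτ0, zero_add] at h1 h2
          exact ⟨τ 1, h1, fun P hP => ⟨h2 P hP s1 ⟨le_rfl, h1.le⟩, h2 P hP (τ 1) ⟨h1.le, le_rfl⟩⟩⟩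
      have hsl : ∀ P, Dv P → k 0 P ≤ k0 P ∧ (k 0 P = k0 P → α 0 P = a0 P) := fun P hP =>
        slope_le hss1 hs13 (hak P hP s ⟨le_rfl, hss1.le⟩) (hak P hP s1 ⟨hss1.le, le_rfl⟩)
          (h3 P hP).1 (h3 P hP).2
      by_cases hall : ∀ P, Dv P → k 0 P = k0 P
      · -- extend the first interval
        have hak' : AffOn g lam κ Dv o (Set.Icc s s1) (α 0) (k 0) := by
          intro P hP t ht
          rw [hall P hP, (hsl P hP).2 (hall P hP)]
          exact hak P hP t ht
        refine ⟨L, fun j => if j = 0 then s else τ j, α, k, if_pos rfl, fun j hj => ?_, ?_, ?_⟩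
        · obtain ⟨h1, h2, h4, h5⟩ := hstep j hj
          rcases Nat.eq_zero_or_pos j with h0 | h0
          · subst h0
            rw [hτ0, zero_add] at h1 h2
            simp only [if_true, zero_add, one_ne_zero, if_false]
            refine ⟨hss1.trans h1, fun P hP t ht => ?_, h4, h5⟩
            rcases le_total t s1 with h6 | h6
            · exact hak' P hP t ⟨ht.1, h6⟩
            · exact h2 P hP t ⟨h6, ht.2⟩
          · have h6 : j ≠ 0 := by omega
            simp only [h6, Nat.add_eq_zero_iff, one_ne_zero, and_false, if_false]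
            exact ⟨h1, h2, h4, h5⟩
        · rcases Nat.eq_zero_or_pos L with hL | hL
          · beta_reduce
            rw [if_pos hL]
            exact ⟨t0, hst0, ht0⟩
          · beta_reduce
            rw [if_neg (by omega)]
            exact ⟨t2, ht2, hft2⟩
        · rcases Nat.eq_zero_or_pos L with hL | hL
          · beta_reduce
            rw [if_pos hL]
            rw [hL, hτ0] at hend
            rw [hL]
            intro P hP t ht
            rcases le_total t s1 with h6 | h6
            · exact hak' P hP t ⟨ht.1, h6⟩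
            · exact hend P hP t ⟨h6, ht.2⟩
          · beta_reduce
            rw [if_neg (by omega)]
            exact hend
      · -- a new step
        push Not at hall
        obtain ⟨P0, hP0, hne0⟩ := hall
        refine ⟨L + 1, fun j => if j = 0 then s else τ (j - 1), fun j => if j = 0 then a0 else
          α (j - 1), fun j => if j = 0 then k0 else k (j - 1), if_pos rfl, fun j hj => ?_, ?_, ?_⟩
        · rcases Nat.eq_zero_or_pos j with h0 | h0
          · subst h0
            simp only [if_true, zero_add, one_ne_zero, if_false, Nat.sub_self, hτ0]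
            refine ⟨hss1, hak, fun P hP => (hsl P hP).1, P0, hP0, ?_⟩
            exact lt_of_le_of_ne (hsl P0 hP0).1 hne0
          · obtain ⟨j', rfl⟩ : ∃ j', j = j' + 1 := ⟨j - 1, by omega⟩
            obtain ⟨h1, h2, h4, h5⟩ := hstep j' (by omega)
            simp only [Nat.add_eq_zero_iff, one_ne_zero, and_false, if_false, Nat.add_sub_cancel]
            exact ⟨h1, h2, h4, h5⟩
        · simp only [Nat.add_eq_zero_iff, one_ne_zero, and_false, if_false, Nat.add_sub_cancel]
          exact ⟨t2, ht2, hft2⟩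
        · simp only [Nat.add_eq_zero_iff, one_ne_zero, and_false, if_false, Nat.add_sub_cancel]
          exact hend

/-- **The value of the direction.** -/
theorem opt_dir {o : Fin N0 → ℚ} {s a k : ℚ} (h : ∀ t, s ≤ t → Opt g o (fun i => lam i + t * κ i) (-(a + t * k))) :
    Opt g o κ (-k) := by
  classical
  refine ⟨fun e' he' => ?_, ?_⟩
  · obtain ⟨e, he, hv⟩ := (h s le_rfl).2
    have h1 := rp_add he he'
    have h2 : (fun i => lam i + s * κ i + κ i) = fun i => lam i + (s + 1) * κ i := by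
      funext i
      ring
    rw [h2] at h1
    have h3 := (h (s + 1) (by linarith)).1 _ h1
    have h4 : ∑ b, (e b + e' b) * o b = ∑ b, e b * o b + ∑ b, e' b * o b := by
      rw [← Finset.sum_add_distrib]
      exact Finset.sum_congr rfl fun b _ => by ring
    rw [h4, hv] at h3
    linarith
  · have h1 : ∀ n : ℕ, ∃ e, Rp g e (fun i => lam i + (s + n) * κ i) ∧
        Ind (fun b i => (g b i : ℚ)) e ∧ ∑ b, e b * o b = -(a + (s + n) * k) := by
      intro n
      have hn : s ≤ s + n := by
        have : (0 : ℚ) ≤ n := Nat.cast_nonneg n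
        linarith
      obtain ⟨hlow, e0, he0, hv0⟩ := h (s + n) hn
      obtain ⟨e, he, hi, hmin⟩ := exists_min (w := fun b i => (g b i : ℚ)) (c := o)
        (μ := fun i => lam i + (s + n) * κ i) (fun e he => hlow e he) ⟨e0, he0⟩
      exact ⟨e, he, hi, le_antisymm (by rw [← hv0]; exact hmin e0 he0) (hlow e he)⟩
    choose e he hi hv using h1
    obtain ⟨B, hB⟩ := Finite.exists_infinite_fiber
      (fun n : ℕ => Finset.univ.filter fun b => e n b ≠ 0)
    have hB' := Set.infinite_coe_iff.1 hB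
    have hsup : ∀ n ∈ (fun n : ℕ => Finset.univ.filter fun b => e n b ≠ 0) ⁻¹' {B}, ∀ b,
        e n b = 0 ↔ b ∉ B := by
      intro n hn b
      have h2 : (Finset.univ.filter fun b => e n b ≠ 0) = B := hn
      rw [← h2]
      simp
    obtain ⟨n1, hn1⟩ := hB'.nonempty
    obtain ⟨n2, hn2, h12⟩ := hB'.exists_gt n1
    have h12' : (n1 : ℚ) < n2 := by exact_mod_cast h12
    have h0 : (0 : ℚ) < n2 - n1 := by linarith
    have hq : ∀ o : Fin N0 → ℚ, ((n2 : ℚ) - n1) * ∑ b, (e n2 b - e n1 b) / (n2 - n1) * o b =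
        ∑ b, e n2 b * o b - ∑ b, e n1 b * o b := by
      intro o
      rw [Finset.mul_sum, ← Finset.sum_sub_distrib]
      refine Finset.sum_congr rfl fun b _ => ?_
      field_simp
    refine ⟨fun b => (e n2 b - e n1 b) / (n2 - n1), ⟨fun b => ?_, fun i => ?_⟩, ?_⟩
    · by_contra hcon
      push Not at hcon
      obtain ⟨q, hqd⟩ : ∃ q, q = fun b => (e n2 b - e n1 b) / ((n2 : ℚ) - n1) := ⟨_, rfl⟩
      have hqb : q b < 0 := by
        rw [hqd]
        exact hcon
      obtain ⟨M, hM⟩ := exists_nat_gt (n1 + e n1 b / (- q b))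
      obtain ⟨n, hn, hMn⟩ := hB'.exists_gt M
      have hMn' : (M : ℚ) < n := by exact_mod_cast hMn
      have hz := hi n1 (fun b => e n b - e n1 b - (n - n1) * q b) (fun b' hb' => by
          have h3 := (hsup n1 hn1 b').1 hb'
          have h4 := (hsup n hn b').2 h3
          have h5 := (hsup n2 hn2 b').2 h3
          beta_reduce
          rw [hb', h4, hqd]
          beta_reduce
          rw [h5, hb']
          simp) (fun i => by
          have h3 := (he n).2 i
          have h4 := (he n1).2 i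
          have h5 := (he n2).2 i
          beta_reduce at h3 h4 h5 ⊢
          have h6 := hq fun b => (g b i : ℚ)
          rw [h5, h4] at h6
          have h7 : ∑ b, q b * (g b i : ℚ) = κ i := by
            rw [hqd]
            have h8 : (n2 - n1 : ℚ) * ∑ b, (e n2 b - e n1 b) / (n2 - n1) * (g b i : ℚ) =
                (n2 - n1 : ℚ) * κ i := by
              rw [h6]
              ring
            exact mul_left_cancel₀ h0.ne' h8
          have h8 : ∑ b, (e n b - e n1 b - (n - n1) * q b) * (g b i : ℚ) =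
              ∑ b, e n b * (g b i : ℚ) - ∑ b, e n1 b * (g b i : ℚ) -
                (n - n1) * ∑ b, q b * (g b i : ℚ) := by
            rw [Finset.mul_sum, ← Finset.sum_sub_distrib, ← Finset.sum_sub_distrib]
            exact Finset.sum_congr rfl fun b _ => by ring
          rw [h8, h3, h4, h7]
          ring) b
      have h3 := (he n).1 b
      have h4 : (n - n1 : ℚ) * q b < - e n1 b := by
        have h5 : e n1 b / (- q b) < n - n1 := by linarith
        rw [div_lt_iff₀ (by linarith)] at h5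
        linarith
      linarith
    · have h6 := hq fun b => (g b i : ℚ)
      have h4 := (he n1).2 i
      have h5 := (he n2).2 i
      beta_reduce at h4 h5 ⊢
      rw [h5, h4] at h6
      have h8 : (n2 - n1 : ℚ) * ∑ b, (e n2 b - e n1 b) / (n2 - n1) * (g b i : ℚ) =
          (n2 - n1 : ℚ) * κ i := by
        rw [h6]
        ring
      exact mul_left_cancel₀ h0.ne' h8
    · have h6 := hq o
      rw [hv, hv] at h6
      have h8 : (n2 - n1 : ℚ) * ∑ b, (e n2 b - e n1 b) / (n2 - n1) * o b =
          (n2 - n1 : ℚ) * (-k) := by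
        rw [h6]
        ring
      exact mul_left_cancel₀ h0.ne' h8

end Pool.Agent.Helper15K1.MM
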