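import Pool.Agent.Helper15K1.MM.Lp
import Pool.Agent.Q57.HK.Dir

/-!
The parametric linear program along a half-line `lam + t κ`: finitely many breakpoints, between
which all the optimal values are affine.
-/

set_option autoImplicit false

namespace Pool.Agent.Helper15K1.MM

open Pool.Agent.Q57.HK

variable {p N0 : ℕ} {g : Fin N0 → Fin p → ℤ} {lam κ : Fin p → ℚ}

/-- interpolation of representations -/
theorem interp {t1 t2 t : ℚ} (h12 : t1 < t2) (h1 : t1 ≤ t) (h2 : t ≤ t2) {e1 e2 : Fin N0 → ℚ}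
    (he1 : Rp g e1 fun i => lam i + t1 * κ i) (he2 : Rp g e2 fun i => lam i + t2 * κ i) :
    ∃ e, Rp g e (fun i => lam i + t * κ i) ∧ (∀ b, e1 b = 0 → e2 b = 0 → e b = 0) ∧
      ∀ o : Fin N0 → ℚ, (t2 - t1) * ∑ b, e b * o b =
        (t2 - t) * ∑ b, e1 b * o b + (t - t1) * ∑ b, e2 b * o b := by
  have h0 : 0 < t2 - t1 := by linarith
  have hs : ∀ o : Fin N0 → ℚ, (t2 - t1) * ∑ b, ((t2 - t) / (t2 - t1) * e1 b +
      (t - t1) / (t2 - t1) * e2 b) * o b =
        (t2 - t) * ∑ b, e1 b * o b + (t - t1) * ∑ b, e2 b * o b := by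
    intro o
    rw [Finset.mul_sum, Finset.mul_sum, Finset.mul_sum, ← Finset.sum_add_distrib]
    refine Finset.sum_congr rfl fun b _ => ?_
    field_simp
  refine ⟨fun b => (t2 - t) / (t2 - t1) * e1 b + (t - t1) / (t2 - t1) * e2 b, ⟨fun b => ?_,
    fun i => ?_⟩, fun b hb1 hb2 => ?_, hs⟩
  · exact add_nonneg (mul_nonneg (div_nonneg (by linarith) h0.le) (he1.1 b))
      (mul_nonneg (div_nonneg (by linarith) h0.le) (he2.1 b))
  · have h3 := hs fun b => (g b i : ℚ)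
    have h4 := he1.2 i
    have h5 := he2.2 i
    beta_reduce at h4 h5
    rw [h4, h5] at h3
    have h6 : (t2 - t) * (lam i + t1 * κ i) + (t - t1) * (lam i + t2 * κ i) =
        (t2 - t1) * (lam i + t * κ i) := by ring
    rw [h6] at h3
    exact mul_left_cancel₀ h0.ne' h3
  · beta_reduce
    rw [hb1, hb2, mul_zero, mul_zero, add_zero]

/-- the combination at the time `t` is in the cone of `B` -/
def FeB (g : Fin N0 → Fin p → ℤ) (lam κ : Fin p → ℚ) (B : Finset (Fin N0)) (t : ℚ) : Prop :=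
  0 ≤ t ∧ CoG g B fun i => lam i + t * κ i

theorem feb_conv {B : Finset (Fin N0)} {t1 t2 t : ℚ} (h1 : FeB g lam κ B t1)
    (h2 : FeB g lam κ B t2) (h1t : t1 ≤ t) (h2t : t ≤ t2) : FeB g lam κ B t := by
  rcases eq_or_lt_of_le (h1t.trans h2t) with h | h
  · have h3 : t = t1 := by linarith
    rw [h3]
    exact h1
  · obtain ⟨h10, e1, ha1, hb1, hc1⟩ := h1
    obtain ⟨h20, e2, ha2, hb2, hc2⟩ := h2
    obtain ⟨e, he, hz, -⟩ := interp h h1t h2t ⟨ha1, hc1⟩ ⟨ha2, hc2⟩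
    exact ⟨h10.trans h1t, e, he.1, fun b hb => hz b (hb1 b hb) (hb2 b hb), he.2⟩

open Classical in
/-- the vectors of the linear program for the times -/
noncomputable def wv (g : Fin N0 → Fin p → ℤ) (κ : Fin p → ℚ) (B : Finset (Fin N0)) :
    Option (Fin N0) → Fin p → ℚ
  | none => fun i => - κ i
  | some b => fun i => if b ∈ B then (g b i : ℚ) else 0

theorem feb_iff {B : Finset (Fin N0)} {t : ℚ} : FeB g lam κ B t ↔
    ∃ e, Fea (wv g κ B) lam e ∧ e none = t := by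
  classical
  constructor
  · rintro ⟨h0, e, ha, hb, hc⟩
    refine ⟨fun o => o.elim t e, ⟨fun o => ?_, fun i => ?_⟩, rfl⟩
    · rcases o with _ | b
      · exact h0
      · exact ha b
    · rw [Fintype.sum_option]
      have h1 : ∑ b, (Option.elim (some b) t e) * wv g κ B (some b) i = ∑ b, e b * g b i := by
        refine Finset.sum_congr rfl fun b _ => ?_
        unfold wv
        simp only [Option.elim]
        split_ifs with h
        · rfl
        · rw [hb b h, zero_mul, zero_mul]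
      rw [h1, hc]
      unfold wv
      simp only [Option.elim]
      ring
  · rintro ⟨e, he, ht⟩
    refine ⟨by rw [← ht]; exact he.1 none, fun b => if b ∈ B then e (some b) else 0, fun b => ?_,
      fun b hb => if_neg hb, fun i => ?_⟩
    · beta_reduce
      split_ifs
      · exact he.1 _
      · exact le_rfl
    · have h1 := he.2 i
      rw [Fintype.sum_option] at h1
      have h2 : ∑ b, (if b ∈ B then e (some b) else 0) * (g b i : ℚ) =
          ∑ b, e (some b) * wv g κ B (some b) i := by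
        refine Finset.sum_congr rfl fun b _ => ?_
        unfold wv
        split_ifs with h
        · simp only [if_pos h]
        · simp only [if_neg h, zero_mul, mul_zero]
      rw [h2]
      have h3 : wv g κ B none i = - κ i := rfl
      rw [h3, ht] at h1
      linarith

theorem sum_none (e : Option (Fin N0) → ℚ) (s : ℚ) :
    ∑ b, e b * (Option.elim b s fun _ => 0) = e none * s := by
  rw [Fintype.sum_option]
  simp

theorem feb_min {B : Finset (Fin N0)} (h : ∃ t, FeB g lam κ B t) :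
    ∃ a, FeB g lam κ B a ∧ ∀ t, FeB g lam κ B t → a ≤ t := by
  obtain ⟨t, ht⟩ := h
  obtain ⟨e0, he0, -⟩ := feb_iff.1 ht
  obtain ⟨e, he, -, hmin⟩ := exists_min (c := fun b => Option.elim b 1 fun _ => 0) (v0 := 0)
    (fun e he => by
      rw [sum_none, mul_one]
      exact he.1 none) ⟨e0, he0⟩
  refine ⟨e none, feb_iff.2 ⟨e, he, rfl⟩, fun t ht => ?_⟩
  obtain ⟨e', he', rfl⟩ := feb_iff.1 ht
  have h1 := hmin e' he'
  rwa [sum_none, sum_none, mul_one, mul_one] at h1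

theorem feb_max {B : Finset (Fin N0)} (h : ∃ t, FeB g lam κ B t) {M : ℚ}
    (hM : ∀ t, FeB g lam κ B t → t ≤ M) :
    ∃ a, FeB g lam κ B a ∧ ∀ t, FeB g lam κ B t → t ≤ a := by
  obtain ⟨t, ht⟩ := h
  obtain ⟨e0, he0, -⟩ := feb_iff.1 ht
  obtain ⟨e, he, -, hmin⟩ := exists_min (c := fun b => Option.elim b (-1) fun _ => 0) (v0 := -M)
    (fun e he => by
      rw [sum_none]
      have := hM _ (feb_iff.2 ⟨e, he, rfl⟩)
      linarith) ⟨e0, he0⟩
  refine ⟨e none, feb_iff.2 ⟨e, he, rfl⟩, fun t ht => ?_⟩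
  obtain ⟨e', he', rfl⟩ := feb_iff.1 ht
  have h1 := hmin e' he'
  rw [sum_none, sum_none] at h1
  linarith

/-- the breakpoints -/
def Bk (g : Fin N0 → Fin p → ℤ) (lam κ : Fin p → ℚ) : Set ℚ :=
  {a | ∃ B : Finset (Fin N0), FeB g lam κ B a ∧
    ((∀ t, FeB g lam κ B t → a ≤ t) ∨ ∀ t, FeB g lam κ B t → t ≤ a)}

theorem bk_fin : (Bk g lam κ).Finite := by
  have h1 : Bk g lam κ ⊆ ⋃ B : Finset (Fin N0),
      ({a | FeB g lam κ B a ∧ ∀ t, FeB g lam κ B t → a ≤ t} ∪
        {a | FeB g lam κ B a ∧ ∀ t, FeB g lam κ B t → t ≤ a}) := by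
    rintro a ⟨B, h1, h2 | h2⟩
    · exact Set.mem_iUnion.2 ⟨B, Or.inl ⟨h1, h2⟩⟩
    · exact Set.mem_iUnion.2 ⟨B, Or.inr ⟨h1, h2⟩⟩
  refine (Set.finite_iUnion fun B => Set.Finite.union ?_ ?_).subset h1
  · refine Set.Subsingleton.finite fun a ha a' ha' => ?_
    exact le_antisymm (ha.2 _ ha'.1) (ha'.2 _ ha.1)
  · refine Set.Subsingleton.finite fun a ha a' ha' => ?_
    exact le_antisymm (ha'.2 _ ha.1) (ha.2 _ ha'.1)

/-- the optimal values are affine on a set of times, if the support of an optimal representation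
represents all the combinations -/
theorem aff_of {o : Fin N0 → ℚ} {J : Set ℚ} {s s' : ℚ} (hs : s ∈ J) (hs' : s' ∈ J) (hlt : s < s')
    {e : Fin N0 → ℚ} (he : Rp g e fun i => lam i + s' * κ i)
    (hopt : ∀ e', Rp g e' (fun i => lam i + s' * κ i) → ∑ b, e b * o b ≤ ∑ b, e' b * o b)
    {B : Finset (Fin N0)} (hsup : ∀ b, e b = 0 → b ∉ B) (hJ : ∀ t ∈ J, FeB g lam κ B t) :
    ∃ a k : ℚ, ∀ t ∈ J, Opt g o (fun i => lam i + t * κ i) (-(a + t * k)) := by
  classical
  have h1 : ∀ t, ∃ v : ℚ, t ∈ J → Opt g o (fun i => lam i + t * κ i) v ∧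
      ∀ e', Rp g e' (fun i => lam i + t * κ i) → (∀ b, b ∉ B → e' b = 0) →
        ∑ b, e' b * o b = v := by
    intro t
    by_cases ht : t ∈ J
    swap
    · exact ⟨0, fun h => absurd h ht⟩
    obtain ⟨-, e1, ha, hb, hc⟩ := hJ t ht
    have hr : Rp g e1 fun i => lam i + t * κ i := ⟨ha, hc⟩
    have h2 : ∀ e', Rp g e' (fun i => lam i + t * κ i) → (∀ b, b ∉ B → e' b = 0) →
        ∀ e'', Rp g e'' (fun i => lam i + t * κ i) → ∑ b, e' b * o b ≤ ∑ b, e'' b * o b :=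
      fun e' he' hz e'' he'' => opt_of_supp (v := ∑ b, e b * o b) ⟨hopt, e, he, rfl⟩ he rfl he'
        (fun b hb' => hz b (hsup b hb')) he''
    refine ⟨∑ b, e1 b * o b, fun _ => ⟨⟨h2 e1 hr hb, e1, hr, rfl⟩, fun e' he' hz => ?_⟩⟩
    exact le_antisymm (h2 e' he' hz e1 hr) (h2 e1 hr hb e' he')
  choose v hv using h1
  have h3 : ∀ t1 ∈ J, ∀ t2 ∈ J, ∀ t3 ∈ J, t1 ≤ t2 → t2 ≤ t3 →
      (t3 - t1) * v t2 = (t3 - t2) * v t1 + (t2 - t1) * v t3 := by
    intro t1 ht1 t2 ht2 t3 ht3 h12 h23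
    rcases eq_or_lt_of_le (h12.trans h23) with h | h
    · have h4 : t2 = t1 := by linarith
      have h5 : t3 = t1 := h.symm
      rw [h4, h5]
      ring
    · obtain ⟨-, e1, ha1, hb1, hc1⟩ := hJ t1 ht1
      obtain ⟨-, e3, ha3, hb3, hc3⟩ := hJ t3 ht3
      obtain ⟨e2, he2, hz, hcost⟩ := interp h h12 h23 ⟨ha1, hc1⟩ ⟨ha3, hc3⟩
      have h4 := (hv t1 ht1).2 e1 ⟨ha1, hc1⟩ hb1
      have h5 := (hv t3 ht3).2 e3 ⟨ha3, hc3⟩ hb3
      have h6 := (hv t2 ht2).2 e2 he2 fun b hb => hz b (hb1 b hb) (hb3 b hb)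
      have h7 := hcost o
      rw [h4, h5, h6] at h7
      exact h7
  have h4 : ∀ t ∈ J, (s' - s) * v t = (s' - t) * v s + (t - s) * v s' := by
    intro t ht
    rcases le_total t s with h | h
    · have := h3 t ht s hs s' hs' h hlt.le
      linarith
    rcases le_total t s' with h' | h'
    · have := h3 s hs t ht s' hs' h h'
      linarith
    · have := h3 s hs s' hs' t ht hlt.le h'
      linarith
  have h0 : s' - s ≠ 0 := by linarith
  refine ⟨-(v s + s * (-(v s' - v s) / (s' - s))), -(v s' - v s) / (s' - s), fun t ht => ?_⟩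
  have h5 : -(-(v s + s * (-(v s' - v s) / (s' - s))) + t * (-(v s' - v s) / (s' - s))) = v t := by
    have h6 := h4 t ht
    have h7 : v t = ((s' - t) * v s + (t - s) * v s') / (s' - s) := by
      rw [eq_div_iff h0]
      linarith
    rw [h7]
    field_simp
    ring
  rw [h5]
  exact (hv t ht).1

/-- **The optimal values are affine between the breakpoints.** -/
theorem aff_gen {o : Fin N0 → ℚ} (hbd : ∀ μ, ∃ v0 : ℚ, ∀ e, Rp g e μ → v0 ≤ ∑ b, e b * o b)
    {J : Set ℚ} {s s' : ℚ} (hs : s ∈ J) (hs' : s' ∈ J) (hlt : s < s') (hJ : ∀ t ∈ J, s ≤ t)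
    (hmin : ∀ a ∈ Bk g lam κ, s < a → s' < a)
    (hmax : ∀ a ∈ Bk g lam κ, s' ≤ a → ∀ t ∈ J, t ≤ a)
    (hfe : FeB g lam κ Finset.univ s') :
    ∃ a k : ℚ, ∀ t ∈ J, Opt g o (fun i => lam i + t * κ i) (-(a + t * k)) := by
  classical
  obtain ⟨hs'0, e0, ha0, -, hc0⟩ := hfe
  obtain ⟨v0, hv0⟩ := hbd fun i => lam i + s' * κ i
  obtain ⟨e, he, -, hopt⟩ := exists_min (w := fun b i => (g b i : ℚ)) (c := o) (v0 := v0)
    (μ := fun i => lam i + s' * κ i) (fun e he => hv0 e he) ⟨e0, ha0, hc0⟩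
  obtain ⟨B, hB⟩ : ∃ B : Finset (Fin N0), B = Finset.univ.filter fun b => e b ≠ 0 := ⟨_, rfl⟩
  have hB1 : ∀ b, b ∉ B ↔ e b = 0 := by
    intro b
    rw [hB]
    simp
  have hB2 : FeB g lam κ B s' := ⟨hs'0, e, he.1, fun b hb => (hB1 b).1 hb, he.2⟩
  refine aff_of hs hs' hlt he hopt (B := B) (fun b hb => (hB1 b).2 hb) fun t ht => ?_
  obtain ⟨a, ha, hamin⟩ := feb_min ⟨s', hB2⟩
  have has : a ≤ s := by
    by_contra hcon
    push Not at hcon
    have h1 := hmin a ⟨B, ha, Or.inl hamin⟩ hcon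
    have h2 := hamin s' hB2
    linarith
  have hst := hJ t ht
  rcases le_total t s' with h | h
  · exact feb_conv ha hB2 (has.trans hst) h
  · by_cases hbb : ∃ M, ∀ t, FeB g lam κ B t → t ≤ M
    · obtain ⟨M, hM⟩ := hbb
      obtain ⟨a', ha', hamax⟩ := feb_max ⟨s', hB2⟩ hM
      exact feb_conv hB2 ha' h (hmax a' ⟨B, ha', Or.inr hamax⟩ (hamax s' hB2) t ht)
    · push Not at hbb
      obtain ⟨t', ht', htt'⟩ := hbb t
      exact feb_conv hB2 ht' h htt'.le

/-- comparison of the slopes of adjacent intervals -/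
theorem slope_le {o : Fin N0 → ℚ} {s1 s2 s3 a k a' k' : ℚ} (h12 : s1 < s2) (h23 : s2 < s3)
    (h1 : Opt g o (fun i => lam i + s1 * κ i) (-(a + s1 * k)))
    (h2 : Opt g o (fun i => lam i + s2 * κ i) (-(a + s2 * k)))
    (h2' : Opt g o (fun i => lam i + s2 * κ i) (-(a' + s2 * k')))
    (h3 : Opt g o (fun i => lam i + s3 * κ i) (-(a' + s3 * k'))) :
    k' ≤ k ∧ (k' = k → a' = a) := by
  have heq : ∀ {μ : Fin p → ℚ} {v v' : ℚ}, Opt g o μ v → Opt g o μ v' → v = v' := by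
    intro μ v v' h h'
    obtain ⟨e, he, hv⟩ := h.2
    obtain ⟨e', he', hv'⟩ := h'.2
    have h5 := h.1 e' he'
    have h6 := h'.1 e he
    linarith
  have h4 := heq h2 h2'
  obtain ⟨e1, he1, hv1⟩ := h1.2
  obtain ⟨e3, he3, hv3⟩ := h3.2
  obtain ⟨e2, he2, -, hcost⟩ := interp (h12.trans h23) h12.le h23.le he1 he3
  have h5 := hcost o
  have h6 := h2.1 e2 he2
  rw [hv1, hv3] at h5
  refine ⟨?_, fun h => by rw [h] at h4; linarith⟩
  have h7 : (s3 - s1) * (-(a + s2 * k)) ≤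
      (s3 - s2) * -(a + s1 * k) + (s2 - s1) * -(a' + s3 * k') := by
    rw [← h5]
    exact mul_le_mul_of_nonneg_left h6 (by linarith)
  have h8 : a' = a + s2 * k - s2 * k' := by linarith
  rw [h8] at h7
  have h9 : (s2 - s1) * (s3 - s2) * k' ≤ (s2 - s1) * (s3 - s2) * k := by nlinarith
  exact le_of_mul_le_mul_left h9 (mul_pos (by linarith) (by linarith))

theorem opt_unique {o : Fin N0 → ℚ} {μ : Fin p → ℚ} {v v' : ℚ} (h : Opt g o μ v)
    (h' : Opt g o μ v') : v = v' := by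
  obtain ⟨e, he, hv⟩ := h.2
  obtain ⟨e', he', hv'⟩ := h'.2
  have h5 := h.1 e' he'
  have h6 := h'.1 e he
  linarith

end Pool.Agent.Helper15K1.MM
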