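import Pool.Agent.Helper15K1.MM.Prog

/-!
The semiample parts of the combinations, from the optimal values.
-/

set_option autoImplicit false
set_option linter.overlappingInstances false
set_option linter.unusedSectionVars false
set_option maxHeartbeats 1000000

open FF MvPolynomial Pool.Agent.W603.LV Pool.Agent.W602.GT Pool.Agent.W602.Cov
open Pool.Agent.Q57.FT Pool.Agent.Q57.CX Pool.Agent.Q57.HK

namespace Pool.Agent.Helper15K1.MM

variable {p N : ℕ} {K : Type} [Field K] [Algebra ℂ K]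

/-- the divisor with the coefficients `γ` is semiample and has the sections of the combination
`μ` -/
def SemP (N : ℕ) (δ : Fin p → Place ℂ K → ℚ) (μ : Fin p → ℚ) (γ : Place ℂ K → ℚ) : Prop :=
  (∀ (m : ℕ) (ν : Fin p → ℤ), (∀ i, (m : ℚ) * μ i = ν i) → ∀ f : K,
    (ZSec N δ ν f ↔ ∀ P : Place ℂ K, Divisorial N P → f = 0 ∨ - (m * γ P) ≤ P.ord f)) ∧
  ∃ m : ℕ, 1 ≤ m ∧ ∃ ν : Fin p → ℤ, (∀ i, (m : ℚ) * μ i = ν i) ∧
    ∀ P : Place ℂ K, Divisorial N P → ∃ f : K, f ≠ 0 ∧ ZSec N δ ν f ∧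
      (P.ord f : ℚ) ≤ - (m * γ P)

/-- the generators -/
def Gns {N0 : ℕ} (N : ℕ) (δ : Fin p → Place ℂ K → ℚ) (g : Fin N0 → Fin p → ℤ) (f : Fin N0 → K) :
    Prop :=
  (∀ b, f b ≠ 0 ∧ ZSec N δ (g b) (f b)) ∧
    ∀ (μ : Fin p → ℤ) (η : K), η ≠ 0 → ZSec N δ μ η → ∀ P : Place ℂ K, Mnl g f P μ η

variable {N0 : ℕ} {g : Fin N0 → Fin p → ℤ} {f : Fin N0 → K} {δ : Fin p → Place ℂ K → ℚ}

/-- the orders of the generators -/
def og (f : Fin N0 → K) (P : Place ℂ K) : Fin N0 → ℚ := fun b => (P.ord (f b) : ℚ)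

theorem low_bd (h : Gns N δ g f) {P : Place ℂ K} (hP : Divisorial N P) {μ : Fin p → ℚ}
    {e : Fin N0 → ℚ} (he : Rp g e μ) : - ∑ i, μ i * δ i P ≤ ∑ b, e b * og f P b := by
  have h1 : ∑ i, μ i * δ i P = ∑ b, e b * ∑ i, (g b i : ℚ) * δ i P := by
    simp only [Finset.mul_sum]
    rw [Finset.sum_comm]
    refine Finset.sum_congr rfl fun i _ => ?_
    rw [← he.2 i, Finset.sum_mul]
    exact Finset.sum_congr rfl fun b _ => by ring
  rw [h1, ← Finset.sum_neg_distrib]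
  refine Finset.sum_le_sum fun b _ => ?_
  have h2 := ((h.1 b).2 P hP).resolve_left (h.1 b).1
  have h3 := mul_le_mul_of_nonneg_left h2 (he.1 b)
  unfold og
  linarith

theorem hbd (h : Gns N δ g f) (P : Place ℂ K) (hP : Divisorial N P) (μ : Fin p → ℚ) :
    ∃ v0 : ℚ, ∀ e, Rp g e μ → v0 ≤ ∑ b, e b * og f P b :=
  ⟨_, fun _ he => low_bd h hP he⟩

/-- the representation of a section -/
theorem rp_of_sec (h : Gns N δ g f) {μ : Fin p → ℚ} {m : ℕ} (hm : 1 ≤ m) {ν : Fin p → ℤ}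
    (hν : ∀ i, (m : ℚ) * μ i = ν i) {η : K} (hη : η ≠ 0) (hs : ZSec N δ ν η) (P : Place ℂ K) :
    ∃ e, Rp g e μ ∧ (m : ℚ) * ∑ b, e b * og f P b ≤ P.ord η := by
  obtain ⟨e, he1, he2⟩ := h.2 ν η hη hs P
  have hm0 : (0 : ℚ) < m := by exact_mod_cast hm
  refine ⟨fun b => (e b : ℚ) / m, ⟨fun b => by positivity, fun i => ?_⟩, ?_⟩
  · have h5 : ∑ b, (e b : ℚ) / m * g b i = (∑ b, (e b : ℚ) * g b i) / m := by
      rw [Finset.sum_div]
      exact Finset.sum_congr rfl fun b _ => by ring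
    have h6 : ∑ b, (e b : ℚ) * g b i = ν i := by
      rw [← he1 i]
      push_cast
      rfl
    rw [h5, h6, ← hν i]
    field_simp
  · have h6 : ∑ b, (e b : ℚ) * (P.ord (f b) : ℚ) ≤ (P.ord η : ℚ) := by exact_mod_cast he2
    refine le_trans (le_of_eq ?_) h6
    rw [Finset.mul_sum]
    refine Finset.sum_congr rfl fun b _ => ?_
    unfold og
    field_simp

/-- the monomial of an integral representation -/
theorem mono_of_rp (h : Gns N δ g f) {μ : Fin p → ℚ} {e : Fin N0 → ℚ} (he : Rp g e μ) {M : ℕ}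
    {e' : Fin N0 → ℕ} (he' : ∀ b, (M : ℚ) * e b = e' b) {ν : Fin p → ℤ}
    (hν : ∀ i, (M : ℚ) * μ i = ν i) :
    (∏ b, f b ^ e' b) ≠ 0 ∧ ZSec N δ ν (∏ b, f b ^ e' b) ∧
      ∀ P : Place ℂ K, (P.ord (∏ b, f b ^ e' b) : ℚ) = M * ∑ b, e b * og f P b := by
  classical
  have h1 := zsec_prod (fun b => (h.1 b).2) e'
  have h2 : ν = ∑ b, e' b • g b := by
    funext i
    have h3 := he.2 i
    have h4 : ((ν i : ℤ) : ℚ) = ((∑ b, e' b • g b) i : ℤ) := by
      rw [← hν i, ← h3, Finset.sum_apply, Finset.mul_sum]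
      push_cast
      refine Finset.sum_congr rfl fun b _ => ?_
      rw [Pi.smul_apply, nsmul_eq_mul, ← mul_assoc, he' b]
      push_cast
      rfl
    exact_mod_cast h4
  rw [← h2] at h1
  refine ⟨Finset.prod_ne_zero_iff.2 fun b _ => pow_ne_zero _ (h.1 b).1, h1, fun P => ?_⟩
  rw [Pool.Agent.Q57.GC.ord_prod P (fun b => (h.1 b).1), Finset.mul_sum]
  push_cast
  refine Finset.sum_congr rfl fun b _ => ?_
  rw [← he' b]
  unfold og
  ring

/-- **The semiample part.** -/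
theorem semp_of_opt (h : Gns N δ g f) {μ : Fin p → ℚ} (hfe : ∃ e, Rp g e μ) {γ : Place ℂ K → ℚ}
    (hopt : ∀ P, Divisorial N P → Opt g (og f P) μ (-(γ P))) : SemP N δ μ γ := by
  classical
  refine ⟨fun m ν hν η => ?_, ?_⟩
  · rcases Nat.eq_zero_or_pos m with hm | hm
    · have hν0 : ∀ i, (ν i : ℚ) = 0 := fun i => by rw [← hν i, hm]; simp
      unfold ZSec
      simp only [hν0, hm, zero_mul, Finset.sum_const_zero, Nat.cast_zero]
    constructor
    · intro hs P hP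
      by_cases hη : η = 0
      · exact Or.inl hη
      right
      obtain ⟨e, he, hle⟩ := rp_of_sec h hm hν hη hs P
      have h1 := (hopt P hP).1 e he
      have h2 := mul_le_mul_of_nonneg_left h1 (Nat.cast_nonneg (α := ℚ) m)
      linarith
    · intro hs P hP
      rcases hs P hP with h1 | h1
      · exact Or.inl h1
      right
      obtain ⟨e, he, hv⟩ := (hopt P hP).2
      have h2 := low_bd h hP he
      rw [hv] at h2
      have h3 := mul_le_mul_of_nonneg_left h2 (Nat.cast_nonneg (α := ℚ) m)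
      have h4 : (m : ℚ) * ∑ i, μ i * δ i P = ∑ i, (ν i : ℚ) * δ i P := by
        rw [Finset.mul_sum]
        refine Finset.sum_congr rfl fun i _ => ?_
        rw [← hν i]
        ring
      linarith
  · obtain ⟨M, hM, hden⟩ := exists_cden (fun (b : Fin N0) (i : Fin p) => (g b i : ℚ)) μ
    have hbas : ∀ P, Divisorial N P → ∃ e, Rp g e μ ∧ Ind (fun b i => (g b i : ℚ)) e ∧
        ∑ b, e b * og f P b = -(γ P) := by
      intro P hP
      obtain ⟨hlow, e0, he0, hv0⟩ := hopt P hP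
      obtain ⟨e, he, hi, hmin⟩ := exists_min (w := fun b i => (g b i : ℚ)) (c := og f P)
        (μ := μ) (fun e he => hlow e he) ⟨e0, he0⟩
      exact ⟨e, he, hi, le_antisymm (by rw [← hv0]; exact hmin e0 he0) (hlow e he)⟩
    obtain ⟨e0, he0⟩ := hfe
    obtain ⟨e1, he1, hi1, -⟩ := exists_min (w := fun b i => (g b i : ℚ)) (c := fun _ => 0)
      (μ := μ) (v0 := 0) (fun e he => by simp) ⟨e0, he0⟩
    obtain ⟨e1', he1'⟩ := hden e1 he1 hi1
    obtain ⟨ν, hν⟩ : ∃ ν : Fin p → ℤ, ∀ i, (M : ℚ) * μ i = ν i := by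
      refine ⟨fun i => ∑ b, (e1' b : ℤ) * g b i, fun i => ?_⟩
      rw [← he1.2 i, Finset.mul_sum]
      push_cast
      refine Finset.sum_congr rfl fun b _ => ?_
      rw [← he1' b]
      ring
    refine ⟨M, hM, ν, hν, fun P hP => ?_⟩
    obtain ⟨e, he, hi, hv⟩ := hbas P hP
    obtain ⟨e', he'⟩ := hden e he hi
    obtain ⟨h1, h2, h3⟩ := mono_of_rp h he he' hν
    refine ⟨_, h1, h2, ?_⟩
    rw [h3 P, hv]
    linarith

/-- a semiample part has the optimal values -/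
theorem opt_of_semp (h : Gns N δ g f) {μ : Fin p → ℚ} {γ : Place ℂ K → ℚ} (hs : SemP N δ μ γ)
    {P : Place ℂ K} (hP : Divisorial N P) : Opt g (og f P) μ (-(γ P)) := by
  classical
  obtain ⟨ha, m, hm, ν, hν, hb⟩ := hs
  have hm0 : (0 : ℚ) < m := by exact_mod_cast hm
  have low : ∀ e, Rp g e μ → -(γ P) ≤ ∑ b, e b * og f P b := by
    intro e he
    obtain ⟨M, hM, e', he'⟩ := exists_den e he.1
    have hM0 : (0 : ℚ) < M := by exact_mod_cast hM
    obtain ⟨ν', hν'⟩ : ∃ ν : Fin p → ℤ, ∀ i, (M : ℚ) * μ i = ν i := by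
      refine ⟨fun i => ∑ b, (e' b : ℤ) * g b i, fun i => ?_⟩
      rw [← he.2 i, Finset.mul_sum]
      push_cast
      refine Finset.sum_congr rfl fun b _ => ?_
      rw [← he' b]
      ring
    obtain ⟨h1, h2, h3⟩ := mono_of_rp h he he' hν'
    have h4 := ((ha M ν' hν' _).1 h2 P hP).resolve_left h1
    rw [h3 P] at h4
    have h5 : (M : ℚ) * (-(γ P)) ≤ M * ∑ b, e b * og f P b := by linarith
    exact le_of_mul_le_mul_left h5 hM0
  refine ⟨low, ?_⟩
  obtain ⟨η, hη0, hη, hle⟩ := hb P hP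
  obtain ⟨e, he, hle2⟩ := rp_of_sec h hm hν hη0 hη P
  refine ⟨e, he, le_antisymm ?_ (low e he)⟩
  have h5 : (m : ℚ) * ∑ b, e b * og f P b ≤ m * (-(γ P)) := by linarith
  exact le_of_mul_le_mul_left h5 hm0

end Pool.Agent.Helper15K1.MM
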